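import Pool.Agent.E8helper32.Inf.Defs
import Pool.Agent.Y133.Half.Growth

/-!
# The system of the algebraic classes, and orthogonality
-/

set_option autoImplicit false

open CategoryTheory AlgebraicGeometry

universe u v

namespace Pool.Agent.E8helper32.Inf

open Module
open Pool.Agent.H914 Pool.Agent.H914.VarClass Pool.Agent.H914.VarClass.Obj
  Pool.Agent.H914.WeilCohomology Pool.Agent.Y133.Half Pool.Agent.X252.SCT Pool.Agent.X252.SCK

variable {k : Type u} [Field k] {𝒱 : VarClass k} {ops : CycleOps 𝒱}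
  {W : WeilCohomology.{u, v} ops} {X Y Z Z' P Q : 𝒱.Obj}

/-- Induction on the span of the algebraic classes. -/
lemma alg_ind {p : W.H Z → Prop} (hcl : ∀ j z, Z.IsCyc j z → p (W.cl Z z)) (h0 : p 0)
    (hadd : ∀ a b, p a → p b → p (a + b)) (hs : ∀ (t : W.K) a, p a → p (t • a)) {c : W.H Z}
    (hc : c ∈ Submodule.span W.K (algSet W Z)) : p c := by
  induction hc using Submodule.span_induction with
  | mem x hx => obtain ⟨j, z, hz, rfl⟩ := hx; exact hcl j z hz
  | zero => exact h0
  | add x y _ _ hx hy => exact hadd x y hx hy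
  | smul t x _ hx => exact hs t x hx

lemma cl_mem_alg {j : ℕ} {z : Z.Cycles} (hz : Z.IsCyc j z) :
    W.cl Z z ∈ Submodule.span W.K (algSet W Z) := Submodule.subset_span ⟨j, z, hz, rfl⟩

variable (W) in
/-- The system of the algebraic classes. -/
noncomputable def aSys : Sys W where
  C X := Submodule.span W.K (algSet W X)
  even hc := by
    refine alg_ind (p := fun c => c ∈ PH W _ 0) ?_ ?_ ?_ ?_ hc
    · intro j z hz; exact PH.of' (by omega) (W.cl_mem hz)
    · exact Submodule.zero_mem _
    · intro a b ha hb; exact Submodule.add_mem _ ha hb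
    · intro t a ha; exact Submodule.smul_mem _ _ ha
  one X := by
    rw [← W.cl_fund]
    exact cl_mem_alg X.V.fundCycle_mem
  mul := by
    intro X c d hc hd
    refine alg_ind (p := fun c => c * d ∈ _) ?_ ?_ ?_ ?_ hc
    · intro i z hz
      refine alg_ind (p := fun d => W.cl X z * d ∈ _) ?_ ?_ ?_ ?_ hd
      · intro j w hw
        rw [← W.cl_mul]
        exact cl_mem_alg (ops.mul_mem hz hw)
      · rw [mul_zero]; exact Submodule.zero_mem _
      · intro a b ha hb; rw [mul_add]; exact Submodule.add_mem _ ha hb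
      · intro t a ha; rw [mul_smul_comm]; exact Submodule.smul_mem _ _ ha
    · rw [zero_mul]; exact Submodule.zero_mem _
    · intro a b ha hb; rw [add_mul]; exact Submodule.add_mem _ ha hb
    · intro t a ha; rw [smul_mul_assoc]; exact Submodule.smul_mem _ _ ha
  map := by
    intro X Y f c hc
    refine alg_ind (p := fun c => W.map f c ∈ _) ?_ ?_ ?_ ?_ hc
    · intro i z hz
      rw [← W.cl_pull]
      exact cl_mem_alg (ops.pull_mem f hz)
    · rw [map_zero]; exact Submodule.zero_mem _
    · intro a b ha hb; rw [map_add]; exact Submodule.add_mem _ ha hb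
    · intro t a ha; rw [map_smul]; exact Submodule.smul_mem _ _ ha
  push := by
    intro X Y f c hc
    refine alg_ind (p := fun c => W.push f c ∈ _) ?_ ?_ ?_ ?_ hc
    · intro i z hz
      by_cases hd : X.dim ≤ i + Y.dim
      · rw [← W.cl_push]
        exact cl_mem_alg (ops.push_mem f (q := i + Y.dim - X.dim) hz (by omega))
      · have h := W.push_mem f (W.cl_mem hz)
        rw [grZ_of_neg (by push_cast; omega)] at h
        rw [(Submodule.mem_bot _).1 h]
        exact Submodule.zero_mem _
    · rw [map_zero]; exact Submodule.zero_mem _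
    · intro a b ha hb; rw [map_add]; exact Submodule.add_mem _ ha hb
    · intro t a ha; rw [map_smul]; exact Submodule.smul_mem _ _ ha

lemma cl_mem_C {j : ℕ} {z : Z.Cycles} (hz : Z.IsCyc j z) : W.cl Z z ∈ (aSys W).C Z :=
  cl_mem_alg hz

/-- The class is orthogonal to the classes of the system. -/
def Orth (S : Sys W) (Z : 𝒱.Obj) (x : W.H Z) : Prop := ∀ d ∈ S.C Z, W.tr Z (x * d) = 0

lemma orth_iff {x : W.H Z} : OrthAlg W Z x ↔ Orth (aSys W) Z x := by
  constructor
  · intro h d hd
    refine alg_ind (p := fun d => W.tr Z (x * d) = 0) ?_ ?_ ?_ ?_ hd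
    · intro j z hz; exact h j z hz
    · rw [mul_zero, map_zero]
    · intro a b ha hb; rw [mul_add, map_add, ha, hb, add_zero]
    · intro t a ha; rw [mul_smul_comm, map_smul, ha, smul_zero]
  · intro h j z hz
    exact h _ (cl_mem_C hz)

section
variable {S : Sys W}

lemma Orth.add {x y : W.H Z} (hx : Orth S Z x) (hy : Orth S Z y) : Orth S Z (x + y) := by
  intro d hd
  rw [add_mul, map_add, hx d hd, hy d hd, add_zero]

lemma Orth.zero : Orth S Z 0 := by
  intro d _
  rw [zero_mul, map_zero]

lemma Orth.neg {x : W.H Z} (hx : Orth S Z x) : Orth S Z (-x) := by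
  intro d hd
  rw [neg_mul, map_neg, hx d hd, neg_zero]

lemma Orth.sub {x y : W.H Z} (hx : Orth S Z x) (hy : Orth S Z y) : Orth S Z (x - y) := by
  intro d hd
  rw [sub_mul, map_sub, hx d hd, hy d hd, sub_zero]

lemma Orth.smul (t : W.K) {x : W.H Z} (hx : Orth S Z x) : Orth S Z (t • x) := by
  intro d hd
  rw [smul_mul_assoc, map_smul, hx d hd, smul_zero]

/-- Operators of the system preserve orthogonality. -/
lemma Orth.op {x : W.H Z} (hx : Orth S Z x) {f : W.H Z →ₗ[W.K] W.H Z'} (hf : f ∈ S.Op Z Z') :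
    Orth S Z' (f x) := by
  intro d hd
  obtain ⟨f', hf', hadj⟩ := Sys.Op.exists_adj hf
  rw [hadj]
  exact hx _ (Sys.Op.apply (fun _ => le_rfl) hf' hd)

/-- Numerically trivial operators make classes orthogonal. -/
lemma NOp_orth {f : W.H Z →ₗ[W.K] W.H Z'} (hf : f ∈ S.NOp Z Z') {c : W.H Z} (hc : c ∈ S.C Z) :
    Orth S Z' (f c) := by
  obtain ⟨e, he, rfl⟩ := Sys.mem_NOp.1 hf
  intro d hd
  rw [corr_apply, W.tr_push, mul_assoc]
  exact he.2 _ (S.mul (S.map _ hc) (S.map _ hd))

lemma mem_Num {x : W.H Z} : x ∈ S.Num Z ↔ x ∈ S.C Z ∧ Orth S Z x := Iff.rfl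

/-- A numerical criterion for an operator to be numerically trivial. -/
lemma mem_NOp_of_trace {x : Module.End W.K (W.H X)} (hx : x ∈ S.Op X X)
    (h : ∀ v ∈ S.Op X X, LinearMap.trace W.K (W.H X) (par (W.isInternal X) ∘ₗ x ∘ₗ v) = 0) :
    x ∈ S.NOp X X := by
  obtain ⟨c, hc, rfl⟩ := Sys.mem_Op.1 hx
  refine Sys.NOp.corr ⟨hc, fun d hd => ?_⟩
  have h1 := h _ (Sys.Op.corr (S.map (swap X X) hd))
  rw [trace_corr_corr, swap_swap] at h1
  exact h1

end

/-- The numerical rank of a set of algebraic classes on the range of an operator. -/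
lemma numDimOf_le (s : Set (W.H Z)) (hs : s ⊆ (aSys W).C Z) (E : Module.End W.K (W.H Z))
    (h : ∀ c ∈ s, Orth (aSys W) Z (c - E c)) : numDimOf W s ≤ rk ((aSys W).F Z E) := by
  set S := aSys W with hS
  set G : Submodule W.K (W.H Z) := Submodule.span W.K s with hG
  have hGC : G ≤ S.C Z := Submodule.span_le.2 hs
  let i : G →ₗ[W.K] S.C Z := Submodule.inclusion hGC
  let L : G →ₗ[W.K] (S.C Z →ₗ[W.K] W.K) := S.F Z 1 ∘ₗ i
  have hL : ∀ (c : G) (d : S.C Z), L c d = W.tr Z ((c : W.H Z) * (d : W.H Z)) := fun c d => rfl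
  have h1 := LinearMap.finrank_range_add_finrank_ker L
  have h2 : finrank W.K (LinearMap.ker L) =
      dimOf W {c | c ∈ Submodule.span W.K s ∧ OrthAlg W Z c} := by
    have h3 : (LinearMap.ker L).map G.subtype =
        Submodule.span W.K {c | c ∈ Submodule.span W.K s ∧ OrthAlg W Z c} := by
      apply le_antisymm
      · rintro _ ⟨c, hc, rfl⟩
        refine Submodule.subset_span ⟨c.2, orth_iff.2 fun d hd => ?_⟩
        have := congrArg (fun f : S.C Z →ₗ[W.K] W.K => f ⟨d, hd⟩) (LinearMap.mem_ker.1 hc)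
        exact this
      · rw [Submodule.span_le]
        rintro c ⟨hc, hc'⟩
        refine ⟨⟨c, hc⟩, ?_, rfl⟩
        rw [SetLike.mem_coe, LinearMap.mem_ker]
        apply LinearMap.ext
        intro d
        exact orth_iff.1 hc' d d.2
    rw [dimOf, Set.finrank, ← h3]
    exact (Submodule.equivMapOfInjective _ (Submodule.subtype_injective _) _).finrank_eq
  have h4 : LinearMap.range L ≤ LinearMap.range (S.F Z E) := by
    rintro _ ⟨c, rfl⟩
    refine ⟨i c, ?_⟩
    apply LinearMap.ext
    intro d
    have h5 : Orth S Z ((c : W.H Z) - E c) := by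
      obtain ⟨c, hc⟩ := c
      change Orth S Z (c - E c)
      induction hc using Submodule.span_induction with
      | mem x hx => exact h x hx
      | zero => rw [map_zero, sub_zero]; exact Orth.zero
      | add x y _ _ hx hy =>
        have : x + y - E (x + y) = (x - E x) + (y - E y) := by rw [map_add]; abel
        rw [this]; exact hx.add hy
      | smul t x _ hx =>
        have : t • x - E (t • x) = t • (x - E x) := by rw [map_smul, smul_sub]
        rw [this]; exact hx.smul t
    have h6 := h5 d d.2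
    rw [sub_mul, map_sub, sub_eq_zero] at h6
    exact h6.symm
  have h5 := Submodule.finrank_mono h4
  have h6 : numDimOf W s = finrank W.K G - finrank W.K (LinearMap.ker L) := by
    rw [numDimOf, h2]
    rfl
  rw [h6, rk]
  omega

lemma numDim_eq (W : WeilCohomology.{u, v} ops) (Z : 𝒱.Obj) : numDim W Z = (aSys W).a Z := by
  have h1 := (aSys W).a_add_num Z
  have h2 : finrank W.K ((aSys W).Num Z) = dimOf W (numTrivial W Z) := by
    have h3 : (aSys W).Num Z = Submodule.span W.K (numTrivial W Z) := by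
      apply le_antisymm
      · intro c hc
        exact Submodule.subset_span ⟨hc.1, orth_iff.2 hc.2⟩
      · rw [Submodule.span_le]
        rintro c ⟨hc, hc'⟩
        exact ⟨hc, orth_iff.1 hc'⟩
    rw [dimOf, Set.finrank, h3]
  have h3 : finrank W.K ((aSys W).C Z) = algDim W Z := rfl
  rw [numDim]
  omega

end Pool.Agent.E8helper32.Inf
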