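import Pool.Agent.E8helper32.Inf.Stmt
import Pool.Agent.H914R2.ExtOp

/-!
# Künneth components of the cycles on `X^n × Y`: operators
-/

set_option autoImplicit false

open CategoryTheory AlgebraicGeometry

universe u v

namespace Pool.Agent.E8helper32.Inf

open Pool.Agent.H914 Pool.Agent.H914.VarClass Pool.Agent.H914.VarClass.Obj
  Pool.Agent.H914.WeilCohomology Pool.Agent.Y133.Half Pool.Agent.X252.SCT

variable {k : Type u} [Field k] {𝒱 : VarClass k} {ops : CycleOps 𝒱}

/-- The operator which takes a class on `X^n × Y` to its Künneth component whose degree in the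
`k`-th factor `X` belongs to `T`. -/
noncomputable def kComp (W : WeilCohomology.{u, v} ops) (X Y : 𝒱.Obj) (T : Set ℕ) :
    ∀ n : ℕ, Fin n → Module.End W.K (W.H (tw X Y n))
  | n + 1, ⟨0, _⟩ => extOp W (projT W X T) (1 : Module.End W.K (W.H (tw X Y n)))
  | n + 1, ⟨k + 1, h⟩ => extOp W (1 : Module.End W.K (W.H X))
      (kComp W X Y T n ⟨k, Nat.lt_of_succ_lt_succ h⟩)

/-- All Künneth components of the class of the cycle `z` on `X^n × Y` for the degrees in `T` in the
factors `X` are classes of cycles of codimension `j`. -/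
def GoodC (W : WeilCohomology.{u, v} ops) (X Y : 𝒱.Obj) (T : Set ℕ) (n j : ℕ)
    (z : (tw X Y n).Cycles) : Prop :=
  ∀ i : Fin n, ∃ w, (tw X Y n).IsCyc j w ∧
    W.cl (tw X Y n) w = kComp W X Y T n i (W.cl (tw X Y n) z)

/-- The classes of the cycles on `X^n × Y` all of whose Künneth components for the degrees in `T` in
the factors `X` are algebraic. -/
def goodSetC (W : WeilCohomology.{u, v} ops) (X Y : 𝒱.Obj) (T : Set ℕ) (n : ℕ) :
    Set (W.H (tw X Y n)) :=
  {c | ∃ j z, (tw X Y n).IsCyc j z ∧ GoodC W X Y T n j z ∧ W.cl (tw X Y n) z = c}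

end Pool.Agent.E8helper32.Inf
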