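import Pool.Agent.E8helper32.Inf.Key

/-!
# Cycles with algebraic Künneth components are numerically concentrated on the idempotent
-/

set_option autoImplicit false

open CategoryTheory AlgebraicGeometry Polynomial

universe u v

namespace Pool.Agent.E8helper32.Inf

open Module
open Pool.Agent.H914 Pool.Agent.H914.VarClass Pool.Agent.H914.VarClass.Obj
  Pool.Agent.H914.WeilCohomology Pool.Agent.Y133.Half Pool.Agent.X252.SCT Pool.Agent.X252.SCK

variable {k : Type u} [Field k] {𝒱 : VarClass k} {ops : CycleOps 𝒱}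
  {W : WeilCohomology.{u, v} ops} {X Y Z Z' Z'' P Q V : 𝒱.Obj} {T : Set ℕ}

/-- The operators `e'` and `e` correspond to each other under the isomorphism. -/
def Compat (W : WeilCohomology.{u, v} ops) (θ : Z' ≅ Z) (e' : Module.End W.K (W.H Z'))
    (e : Module.End W.K (W.H Z)) : Prop := ∀ x, e' (W.map θ.hom x) = W.map θ.hom (e x)

lemma map_hom_inv (θ : Z' ≅ Z) (x : W.H Z') : W.map θ.hom (W.map θ.inv x) = x := by
  rw [← W.map_comp, θ.hom_inv_id, W.map_id]

lemma map_inv_hom (θ : Z' ≅ Z) (x : W.H Z) : W.map θ.inv (W.map θ.hom x) = x := by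
  rw [← W.map_comp, θ.inv_hom_id, W.map_id]

lemma Compat.symm {θ : Z' ≅ Z} {e' : Module.End W.K (W.H Z')} {e : Module.End W.K (W.H Z)}
    (h : Compat W θ e' e) : Compat W θ.symm e e' := by
  intro x
  have h1 := h (W.map θ.inv x)
  rw [map_hom_inv] at h1
  change e (W.map θ.inv x) = W.map θ.inv (e' x)
  rw [h1, map_inv_hom]

lemma Compat.trans {θ : Z'' ≅ Z'} {η : Z' ≅ Z} {e'' : Module.End W.K (W.H Z'')}
    {e' : Module.End W.K (W.H Z')} {e : Module.End W.K (W.H Z)}
    (h : Compat W θ e'' e') (h' : Compat W η e' e) : Compat W (θ ≪≫ η) e'' e := by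
  intro x
  have h1 : ∀ y : W.H Z, W.map (θ ≪≫ η).hom y = W.map θ.hom (W.map η.hom y) := fun y =>
    W.map_comp θ.hom η.hom y
  rw [h1, h1, h, h']

lemma Compat.refl (e : Module.End W.K (W.H Z)) : Compat W (Iso.refl Z) e e := by
  intro x
  change e (W.map (𝟙 Z) x) = W.map (𝟙 Z) (e x)
  rw [W.map_id, W.map_id]

lemma Compat.one (θ : Z' ≅ Z) : Compat W θ 1 1 := fun _ => rfl

lemma Compat.prod {φ : Z' ≅ Z} {e' : Module.End W.K (W.H Z')} {e : Module.End W.K (W.H Z)}
    (h : Compat W φ e' e) (a : Module.End W.K (W.H X)) :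
    Compat W (prodCongr (Iso.refl X) φ) (extOp W a e') (extOp W a e) := by
  have e1 : (prodCongr (Iso.refl X) φ).hom ≫ fst _ _ = fst _ _ := by
    change Obj.lift (fst _ _ ≫ 𝟙 X) (snd _ _ ≫ φ.hom) ≫ fst _ _ = fst _ _
    rw [Obj.lift_fst, Category.comp_id]
  have e2 : (prodCongr (Iso.refl X) φ).hom ≫ snd _ _ = snd _ _ ≫ φ.hom := Obj.lift_snd _ _
  have e3 : ∀ p : W.H X, ∀ z : W.H Z, W.map (prodCongr (Iso.refl X) φ).hom (xp W p z) =
      xp W p (W.map φ.hom z) := by
    intro p z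
    rw [map_xp, e1, e2, W.map_comp, xp_def]
  have h1 : extOp W a e' ∘ₗ (W.map (prodCongr (Iso.refl X) φ).hom).toLinearMap =
      (W.map (prodCongr (Iso.refl X) φ).hom).toLinearMap ∘ₗ extOp W a e := by
    apply xp_ext
    intro i j p _ z _
    simp only [LinearMap.comp_apply, AlgHom.toLinearMap_apply, e3, extOp_xp]
    rw [h]
  exact fun x => congrArg (fun f => f x) h1

lemma compat_θ₃ (a : Module.End W.K (W.H P)) (b : Module.End W.K (W.H Q))
    (d : Module.End W.K (W.H Z)) :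
    Compat W (θ₃ P Q Z) (extOp W (extOp W a b) d) (extOp W a (extOp W b d)) := by
  have h : (extOp W (extOp W a b) d) ∘ₗ (W.map (θ₃ P Q Z).hom).toLinearMap =
      (W.map (θ₃ P Q Z).hom).toLinearMap ∘ₗ (extOp W a (extOp W b d)) := by
    apply xpL_ext
    intro i j l p hp a ha b hb
    simp only [LinearMap.comp_apply, AlgHom.toLinearMap_apply, extOp_xp]
    rw [θ₃_xp, θ₃_xp, extOp_xp, extOp_xp]
  exact fun x => congrArg (fun f => f x) h

lemma compat_θ₁ {g : Module.End W.K (W.H P)} {a : Module.End W.K (W.H Y)}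
    (b : Module.End W.K (W.H Z)) (hg : Ev W g) (ha : Ev W a) :
    Compat W (θ₁ Y P Z) (extOp W a (extOp W g b)) (extOp W g (extOp W a b)) := by
  have h : (extOp W a (extOp W g b)) ∘ₗ (W.map (θ₁ Y P Z).hom).toLinearMap =
      (W.map (θ₁ Y P Z).hom).toLinearMap ∘ₗ (extOp W g (extOp W a b)) := by
    apply xpL_ext
    intro i j l p hp y hy z hz
    simp only [LinearMap.comp_apply, AlgHom.toLinearMap_apply, extOp_xp]
    rw [θ₁_xp hp hy, θ₁_xp (hg _ _ hp) (ha _ _ hy), map_smul, extOp_xp, extOp_xp]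
  exact fun x => congrArg (fun f => f x) h

lemma Ev.one' : Ev W (1 : Module.End W.K (W.H X)) := fun _ _ hx => hx

lemma Ev.projT : Ev W (projT W X T) := by
  intro b x hx
  refine PH.ind (p := fun x => Pool.Agent.X252.SCT.projT W X T x ∈ PH W X b) ?_ ?_ ?_ hx
  · intro i hi x hx
    by_cases h : i ∈ T
    · rw [projT_in h hx]; exact PH.of' hi hx
    · rw [projT_out h hx]; exact Submodule.zero_mem _
  · rw [map_zero]; exact Submodule.zero_mem _
  · intro y y' hy hy'; rw [map_add]; exact Submodule.add_mem _ hy hy'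

lemma corr_swap_ext {g : Module.End W.K (W.H X)} (hg : Ev W g) (c : W.H (X.prod Z)) :
    W.corr (W.map (swap Z X) (extOp W g (1 : Module.End W.K (W.H Z)) c)) =
      g ∘ₗ W.corr (W.map (swap Z X) c) := by
  have h1 : extOp W (1 : Module.End W.K (W.H Z)) g (W.map (swap Z X) c) =
      W.map (swap Z X) (extOp W g (1 : Module.End W.K (W.H Z)) c) :=
    Sys.swap_op (W := W) (Z := Z) hg c
  rw [← h1, corr_extOp Adj.one Ev.one' hg]
  rfl

lemma tr_factor {g : Module.End W.K (W.H X)} (hg : Ev W g) (c d : W.H (X.prod Z)) :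
    W.tr (X.prod Z) (extOp W g (1 : Module.End W.K (W.H Z)) c * d) =
      LinearMap.trace W.K (W.H X) (par (W.isInternal X) ∘ₗ (g ∘ₗ
        (W.corr (W.map (swap Z X) c) ∘ₗ W.corr d))) := by
  have h3 := (tr_swap (W := W) (X := Z) (Y := X)
    (extOp W g (1 : Module.End W.K (W.H Z)) c * d)).symm
  have h4 := trace_corr_corr (W := W) (N := Z) (M := X)
    (W.map (swap Z X) (extOp W g (1 : Module.End W.K (W.H Z)) c)) d
  rw [h3, map_mul (W.map (swap Z X)), ← h4, corr_swap_ext hg, LinearMap.comp_assoc]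

/-- The main lemma for one factor. -/
lemma one_factor {g : Module.End W.K (W.H X)} (hg : g ∈ KOp W X X 0)
    (hgO : g ∈ (aSys W).Op X X)
    (htr : ∀ u ∈ idI W X T, LinearMap.trace W.K (W.H X) (par (W.isInternal X) * (g * u)) = 0)
    {j : ℕ} {z w : (X.prod Z).Cycles} (hz : (X.prod Z).IsCyc j z) (hw : (X.prod Z).IsCyc j w)
    (h : W.cl _ w = extOp W (projT W X T) (1 : Module.End W.K (W.H Z)) (W.cl _ z)) :
    Orth (aSys W) (X.prod Z) (extOp W g (1 : Module.End W.K (W.H Z)) (W.cl _ z)) := by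
  have hev : Ev W g := Sys.Op.ev hgO
  intro d hd
  refine alg_ind (p := fun d => W.tr (X.prod Z) (extOp W g (1 : Module.End W.K (W.H Z))
    (W.cl _ z) * d) = 0) ?_ ?_ ?_ ?_ hd
  · intro i y hy
    by_cases hij : i + j = X.dim + Z.dim
    · have hzs : (Z.prod X).IsCyc j (ops.pull (swap Z X) z) := ops.pull_mem _ hz
      have hws : (Z.prod X).IsCyc j (ops.pull (swap Z X) w) := ops.pull_mem _ hw
      have hu1 : IsAlg W X (W.corr (W.map (swap Z X) (W.cl _ z)) ∘ₗ W.corr (W.cl _ y)) := by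
        refine ⟨compCyc ops y (ops.pull (swap Z X) z), compCyc_mem hy hzs hij, ?_⟩
        rw [corr_compCyc W hzs, W.cl_pull]
      have hu2 : IsAlg W X (projT W X T ∘ₗ
          (W.corr (W.map (swap Z X) (W.cl _ z)) ∘ₗ W.corr (W.cl _ y))) := by
        refine ⟨compCyc ops y (ops.pull (swap Z X) w), compCyc_mem hy hws hij, ?_⟩
        rw [corr_compCyc W hws, W.cl_pull, h, corr_swap_ext Ev.projT, LinearMap.comp_assoc]
      rw [tr_factor hev]
      exact htr _ ⟨hu1, hu2⟩
    · have h1 : extOp W g (1 : Module.End W.K (W.H Z)) ∈ KOp W (X.prod Z) (X.prod Z) 0 := by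
        have h0 := Pool.Agent.H914.KOp.ext hg (KOp.id (W := W) Z)
        rw [add_zero] at h0
        exact h0
      have h2 := W.mul_mem (KOp.map_gr h1 (W.cl_mem hz)) (W.cl_mem hy)
      exact W.tr_eq_zero h2 (by rw [dim_prod]; omega)
  · rw [mul_zero, map_zero]
  · intro a b ha hb; rw [mul_add, map_add, ha, hb, add_zero]
  · intro t a ha; rw [mul_smul_comm, map_smul, ha, smul_zero]

/-- The class `c` and its image under `A` are classes of cycles of the same codimension. -/
def Gd (W : WeilCohomology.{u, v} ops) (Z : 𝒱.Obj) (A : Module.End W.K (W.H Z)) (j : ℕ)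
    (c : W.H Z) : Prop :=
  (∃ z, Z.IsCyc j z ∧ W.cl Z z = c) ∧ ∃ w, Z.IsCyc j w ∧ W.cl Z w = A c

lemma Gd.iso {θ : Z' ≅ Z} {A' : Module.End W.K (W.H Z')} {A : Module.End W.K (W.H Z)}
    (h : Compat W θ A' A) {j : ℕ} {c : W.H Z} (hc : Gd W Z A j c) :
    Gd W Z' A' j (W.map θ.hom c) := by
  obtain ⟨⟨z, hz, rfl⟩, w, hw, hw'⟩ := hc
  refine ⟨⟨ops.pull θ.hom z, ops.pull_mem _ hz, W.cl_pull _ _⟩, ops.pull θ.hom w,
    ops.pull_mem _ hw, ?_⟩
  rw [W.cl_pull, hw', h]

/-- The product of `n` copies of the operator `e` and of the operator `h` on the last factor. -/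
noncomputable def pin (W : WeilCohomology.{u, v} ops) (X Y : 𝒱.Obj) (e : Module.End W.K (W.H X))
    (h : Module.End W.K (W.H Y)) : ∀ n, Module.End W.K (W.H (tw X Y n))
  | 0 => h
  | n + 1 => extOp W e (pin W X Y e h n)

lemma pin_mem {S : Sys W} {e : Module.End W.K (W.H X)} {h : Module.End W.K (W.H Y)}
    (he : e ∈ S.Op X X) (hh : h ∈ S.Op Y Y) : ∀ n, pin W X Y e h n ∈ S.Op (tw X Y n) (tw X Y n)
  | 0 => hh
  | n + 1 => Sys.Op.ext he (pin_mem he hh n)

lemma extOp_sub_left (φ φ' : Module.End W.K (W.H Y)) (ψ : Module.End W.K (W.H Z)) :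
    extOp W (φ - φ') ψ = extOp W φ ψ - extOp W φ' ψ := by
  have h := extOp_add_left (W := W) (φ - φ') φ' ψ
  rw [sub_add_cancel] at h
  rw [h, add_sub_cancel_right]

lemma extOp_sub_right (φ : Module.End W.K (W.H Y)) (ψ ψ' : Module.End W.K (W.H Z)) :
    extOp W φ (ψ - ψ') = extOp W φ ψ - extOp W φ ψ' := by
  have h := extOp_add_right (W := W) φ (ψ - ψ') ψ'
  rw [sub_add_cancel] at h
  rw [h, add_sub_cancel_right]

section multi

variable {e : Module.End W.K (W.H X)} (he : e ∈ idJ W X T)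
  (htr : ∀ u ∈ idI W X T,
    LinearMap.trace W.K (W.H X) (par (W.isInternal X) * ((1 - e) * u)) = 0)

include he htr

lemma stepA {j : ℕ} {c : W.H (V.prod (X.prod Z))}
    (h1 : Gd W (V.prod (X.prod Z)) (extOp W (1 : Module.End W.K (W.H V))
        (extOp W (projT W X T) (1 : Module.End W.K (W.H Z)))) j c) :
    Orth (aSys W) (V.prod (X.prod Z)) (c -
        extOp W (1 : Module.End W.K (W.H V)) (extOp W e (1 : Module.End W.K (W.H Z))) c) := by
  have hg : (1 - e) ∈ KOp W X X 0 := Submodule.sub_mem _ (KOp.id X) (idJ_KOp he)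
  have hgO : (1 - e) ∈ (aSys W).Op X X := Submodule.sub_mem _ Sys.Op.id (idJ_Op he)
  have h2 := h1.iso (compat_θ₁ (W := W) (Y := V) (P := X) (Z := Z) 1 (Ev.projT (T := T))
    Ev.one').symm
  rw [extOp_one] at h2
  obtain ⟨⟨z, hz, hz'⟩, w, hw, hw'⟩ := h2
  have h3 := one_factor hg hgO htr hz hw (by rw [hw', hz'])
  rw [hz'] at h3
  have h4 := h3.op (Sys.Op.map (S := aSys W) (θ₁ V X Z).hom)
  have h5 := compat_θ₁ (W := W) (Y := V) (P := X) (Z := Z) (g := 1 - e) (a := 1) 1
    (Sys.Op.ev hgO) Ev.one' (W.map (θ₁ V X Z).inv c)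
  rw [map_hom_inv, extOp_sub_left, extOp_sub_right, extOp_one, extOp_one,
    LinearMap.sub_apply, Module.End.one_apply] at h5
  rw [h5, extOp_one]
  exact h4

omit he htr in
lemma stepB {A : Module.End W.K (W.H Z)} {c : W.H (V.prod (X.prod Z))}
    (h : Orth (aSys W) ((V.prod X).prod Z) (W.map (θ₃ V X Z).hom c -
      extOp W (1 : Module.End W.K (W.H (V.prod X))) A (W.map (θ₃ V X Z).hom c))) :
    Orth (aSys W) (V.prod (X.prod Z)) (c - extOp W (1 : Module.End W.K (W.H V))
      (extOp W (1 : Module.End W.K (W.H X)) A) c) := by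
  have h4 := compat_θ₃ (W := W) (1 : Module.End W.K (W.H V)) (1 : Module.End W.K (W.H X)) A c
  rw [extOp_one] at h4
  rw [h4, ← map_sub] at h
  have h5 := h.op (Sys.Op.map (S := aSys W) (θ₃ V X Z).inv)
  change Orth _ _ (W.map (θ₃ V X Z).inv _) at h5
  rwa [map_inv_hom] at h5

omit htr in
lemma stepC {A : Module.End W.K (W.H Z)} {c : W.H (V.prod (X.prod Z))}
    (hA : Orth (aSys W) (V.prod (X.prod Z)) (c -
      extOp W (1 : Module.End W.K (W.H V)) (extOp W e (1 : Module.End W.K (W.H Z))) c))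
    (hB : Orth (aSys W) (V.prod (X.prod Z)) (c - extOp W (1 : Module.End W.K (W.H V))
      (extOp W (1 : Module.End W.K (W.H X)) A) c)) :
    Orth (aSys W) (V.prod (X.prod Z)) (c - extOp W (1 : Module.End W.K (W.H V))
      (extOp W e A) c) := by
  have hO : extOp W (1 : Module.End W.K (W.H V)) (extOp W e (1 : Module.End W.K (W.H Z))) ∈
      (aSys W).Op (V.prod (X.prod Z)) (V.prod (X.prod Z)) :=
    Sys.Op.ext Sys.Op.id (Sys.Op.ext (idJ_Op he) Sys.Op.id)
  have hB' := hB.op hO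
  rw [map_sub] at hB'
  have h6 : extOp W (1 : Module.End W.K (W.H V)) (extOp W e (1 : Module.End W.K (W.H Z)))
      (extOp W (1 : Module.End W.K (W.H V)) (extOp W (1 : Module.End W.K (W.H X)) A) c) =
      extOp W (1 : Module.End W.K (W.H V)) (extOp W e A) c := by
    rw [← Module.End.mul_apply, extOp_mul, extOp_mul, mul_one, mul_one, one_mul]
  rw [h6] at hB'
  have h7 := hA.add hB'
  rw [sub_add_sub_cancel] at h7
  exact h7

omit htr in
lemma stepC' {A : Module.End W.K (W.H Z)} {c : W.H (X.prod Z)}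
    (hA : Orth (aSys W) (X.prod Z) (c - extOp W e (1 : Module.End W.K (W.H Z)) c))
    (hB : Orth (aSys W) (X.prod Z) (c - extOp W (1 : Module.End W.K (W.H X)) A c)) :
    Orth (aSys W) (X.prod Z) (c - extOp W e A c) := by
  have hO : extOp W e (1 : Module.End W.K (W.H Z)) ∈ (aSys W).Op (X.prod Z) (X.prod Z) :=
    Sys.Op.ext (idJ_Op he) Sys.Op.id
  have hB' := hB.op hO
  rw [map_sub] at hB'
  have h6 : extOp W e (1 : Module.End W.K (W.H Z))
      (extOp W (1 : Module.End W.K (W.H X)) A c) = extOp W e A c := by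
    rw [← Module.End.mul_apply, extOp_mul, mul_one, one_mul]
  rw [h6] at hB'
  have h7 := hA.add hB'
  rw [sub_add_sub_cancel] at h7
  exact h7

lemma multi_aux (Y : 𝒱.Obj) (n : ℕ) : ∀ (V : 𝒱.Obj) (j : ℕ) (c : W.H (V.prod (tw X Y n))),
    (∀ i : Fin n, Gd W (V.prod (tw X Y n))
      (extOp W (1 : Module.End W.K (W.H V)) (kComp W X Y T n i)) j c) →
    Orth (aSys W) (V.prod (tw X Y n))
      (c - extOp W (1 : Module.End W.K (W.H V)) (pin W X Y e 1 n) c) := by
  induction n with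
  | zero =>
    intro V j c _
    have h1 : extOp W (1 : Module.End W.K (W.H V)) (pin W X Y e 1 0) = 1 := extOp_one
    rw [h1, Module.End.one_apply, sub_self]
    exact Orth.zero
  | succ n ih =>
    intro V j c hc
    refine stepC (Z := tw X Y n) he ?_ ?_
    · exact stepA (Z := tw X Y n) he htr (hc ⟨0, Nat.succ_pos n⟩)
    · refine stepB (Z := tw X Y n) (ih (V.prod X) j _ fun i => ?_)
      have h2 : Gd W (V.prod (X.prod (tw X Y n))) (extOp W (1 : Module.End W.K (W.H V))
        (extOp W (1 : Module.End W.K (W.H X)) (kComp W X Y T n i))) j c :=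
          hc ⟨i + 1, Nat.succ_lt_succ i.2⟩
      have h3 := h2.iso (compat_θ₃ (W := W) (1 : Module.End W.K (W.H V))
        (1 : Module.End W.K (W.H X)) (kComp W X Y T n i))
      rw [extOp_one] at h3
      exact h3

/-- Good cycles are numerically concentrated on the range of the power of the idempotent. -/
theorem good_orth (Y : 𝒱.Obj) (n : ℕ) {c : W.H (tw X Y n)} (hc : c ∈ goodSetC W X Y T n) :
    Orth (aSys W) (tw X Y n) (c - pin W X Y e 1 n c) := by
  obtain ⟨j, z, hz, hgood, rfl⟩ := hc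
  cases n with
  | zero =>
    have h1 : pin W X Y e 1 0 = 1 := rfl
    rw [h1, Module.End.one_apply, sub_self]
    exact Orth.zero
  | succ n =>
    have hg : (1 - e) ∈ KOp W X X 0 := Submodule.sub_mem _ (KOp.id X) (idJ_KOp he)
    have hgO : (1 - e) ∈ (aSys W).Op X X := Submodule.sub_mem _ Sys.Op.id (idJ_Op he)
    refine stepC' (Z := tw X Y n) he ?_ ?_
    · obtain ⟨w, hw, hw'⟩ := hgood ⟨0, Nat.succ_pos n⟩
      have h3 := one_factor (X := X) (Z := tw X Y n) hg hgO htr hz hw hw'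
      rw [extOp_sub_left, extOp_one, LinearMap.sub_apply, Module.End.one_apply] at h3
      exact h3
    · refine multi_aux he htr Y n X j _ fun i => ?_
      obtain ⟨w, hw, hw'⟩ := hgood ⟨i + 1, Nat.succ_lt_succ i.2⟩
      exact ⟨⟨z, hz, rfl⟩, w, hw, hw'⟩

end multi

end Pool.Agent.E8helper32.Inf
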