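import Pool.Agent.E8helper32.Inf.Defs
import Pool.Agent.Y133.Half.Seq

/-!
# Supermultiplicative sequences
-/

set_option autoImplicit false

namespace Pool.Agent.E8helper32.Inf

lemma exists_rate {g : ℕ → ℕ} (h0 : 1 ≤ g 0) (hg : ∀ k l, g k * g l ≤ g (l + k + 1)) {M : ℝ}
    (hM0 : 0 ≤ M) (hM : ∀ k, (g k : ℝ) ≤ M ^ (k + 1)) :
    ∃ c : ℝ, 1 ≤ c ∧ (∀ k, (g k : ℝ) ≤ c ^ (k + 1)) ∧
      ∀ c', 0 ≤ c' → c' < c → ∃ κ : ℝ, 0 < κ ∧ ∀ k, κ * c' ^ (k + 1) ≤ g k := by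
  have hpos : ∀ k, 1 ≤ g k := by
    intro k
    induction k with
    | zero => exact h0
    | succ k ih =>
      have h1 := hg 0 k
      have h2 : 1 * 1 ≤ g 0 * g k := Nat.mul_le_mul h0 ih
      have h3 : k + 0 + 1 = k + 1 := rfl
      rw [h3] at h1
      omega
  set A : Set ℝ := {x | 0 ≤ x ∧ ∃ k, x ^ (k + 1) ≤ g k} with hA
  have hbd : BddAbove A := by
    refine ⟨M, ?_⟩
    rintro x ⟨hx, k, hk⟩
    exact le_of_pow_le_pow_left₀ (Nat.succ_ne_zero k) hM0 (hk.trans (hM k))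
  have h1A : (1 : ℝ) ∈ A := ⟨zero_le_one, 0, by rw [one_pow]; exact_mod_cast h0⟩
  have hne : A.Nonempty := ⟨1, h1A⟩
  refine ⟨sSup A, le_csSup hbd h1A, fun k => ?_, fun c' hc' hlt => ?_⟩
  · have h2 : (0 : ℝ) ≤ g k := Nat.cast_nonneg _
    have h3 : ((g k : ℝ) ^ ((1 : ℝ) / ((k + 1 : ℕ) : ℝ))) ^ (k + 1) = g k := by
      rw [one_div]
      exact Real.rpow_inv_natCast_pow h2 (Nat.succ_ne_zero k)
    have h4 : (g k : ℝ) ^ ((1 : ℝ) / ((k + 1 : ℕ) : ℝ)) ∈ A :=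
      ⟨Real.rpow_nonneg h2 _, k, h3.le⟩
    calc (g k : ℝ) = ((g k : ℝ) ^ ((1 : ℝ) / ((k + 1 : ℕ) : ℝ))) ^ (k + 1) := h3.symm
      _ ≤ _ := pow_le_pow_left₀ (Real.rpow_nonneg h2 _) (le_csSup hbd h4) _
  · obtain ⟨x, ⟨hx0, k₀, hk₀⟩, hx⟩ := exists_lt_of_lt_csSup hne hlt
    rcases le_or_gt c' 1 with h1 | h1
    · refine ⟨1, one_pos, fun k => ?_⟩
      rw [one_mul]
      calc c' ^ (k + 1) ≤ 1 := pow_le_one₀ hc' h1
        _ ≤ g k := by exact_mod_cast hpos k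
    · have hc1 : 0 < c' := by linarith
      have key : ∀ q r, c' ^ ((k₀ + 1) * q) ≤ g ((k₀ + 1) * q + r) := by
        intro q
        induction q with
        | zero =>
          intro r
          rw [mul_zero, pow_zero]
          exact_mod_cast hpos _
        | succ q ih =>
          intro r
          have h2 := hg k₀ ((k₀ + 1) * q + r)
          have h3 : (k₀ + 1) * q + r + k₀ + 1 = (k₀ + 1) * (q + 1) + r := by ring
          rw [h3] at h2
          have h4 : (g k₀ : ℝ) * g ((k₀ + 1) * q + r) ≤ g ((k₀ + 1) * (q + 1) + r) := by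
            exact_mod_cast h2
          refine le_trans ?_ h4
          have h5 : c' ^ ((k₀ + 1) * (q + 1)) = c' ^ (k₀ + 1) * c' ^ ((k₀ + 1) * q) := by
            rw [← pow_add]; congr 1; ring
          rw [h5]
          have h6 : c' ^ (k₀ + 1) ≤ g k₀ := (pow_le_pow_left₀ hc' hx.le _).trans hk₀
          exact mul_le_mul h6 (ih r) (by positivity) (Nat.cast_nonneg _)
      refine ⟨(c' ^ (k₀ + 1))⁻¹, by positivity, fun k => ?_⟩
      have h2 := key (k / (k₀ + 1)) (k % (k₀ + 1))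
      rw [Nat.div_add_mod] at h2
      refine le_trans ?_ h2
      rw [inv_mul_le_iff₀ (by positivity), ← pow_add]
      apply pow_le_pow_right₀ h1.le
      have h3 := Nat.div_add_mod k (k₀ + 1)
      have h4 : k % (k₀ + 1) < k₀ + 1 := Nat.mod_lt k (Nat.succ_pos k₀)
      omega

lemma binom_growth {B : ℕ → ℕ → ℕ} {g : ℕ → ℕ} (hB : ∀ k n, B (k + 1) n + B k n ≤ B k (n + 1))
    (hg : ∀ k, g k ≤ B k 0) {κ c : ℝ}
    (h : ∀ k, κ * c ^ (k + 1) ≤ g k) (n : ℕ) : ∀ k, κ * c ^ (k + 1) * (1 + c) ^ n ≤ B k n := by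
  induction n with
  | zero =>
    intro k
    rw [pow_zero, mul_one]
    exact (h k).trans (by exact_mod_cast hg k)
  | succ n ih =>
    intro k
    have h1 := ih (k + 1)
    have h2 := ih k
    have h3 : (B (k + 1) n : ℝ) + B k n ≤ B k (n + 1) := by exact_mod_cast hB k n
    calc κ * c ^ (k + 1) * (1 + c) ^ (n + 1)
        = κ * c ^ (k + 1 + 1) * (1 + c) ^ n + κ * c ^ (k + 1) * (1 + c) ^ n := by ring
      _ ≤ (B (k + 1) n : ℝ) + B k n := add_le_add h1 h2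
      _ ≤ _ := h3

open Filter Topology in
lemma expSmall_of_sq {a t : ℕ → ℕ} {C q : ℝ} (m n₁ : ℕ) (hq0 : 0 ≤ q) (hq1 : q < 1)
    (h : ∀ n ≥ n₁, (a n : ℝ) ^ 2 ≤ C * ((n : ℝ) + 3) ^ m * q ^ n * (t n : ℝ) ^ 2) :
    ExpSmall a t := by
  set s : ℝ := (1 + q) / 2 with hs
  have hqs : q < s := by rw [hs]; linarith
  have hs1 : s < 1 := by rw [hs]; linarith
  have hs0 : 0 < s := by rw [hs]; linarith
  obtain ⟨l₀, hl₀⟩ := Pool.Agent.Y133.Half.exp_lt (c := q) (B := s) hq0 hqs m (C := |C| * 3 ^ m)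
    one_pos
  refine ⟨Real.sqrt s, Real.sqrt_nonneg _, ?_, max n₁ l₀, fun n hn => ?_⟩
  · rw [Real.sqrt_lt' one_pos]
    simpa using hs1
  · have h1 := h n ((le_max_left _ _).trans hn)
    have h2 := hl₀ n ((le_max_right _ _).trans hn)
    rw [one_mul] at h2
    have h3 : C * ((n : ℝ) + 3) ^ m * q ^ n ≤ s ^ n := by
      refine le_trans ?_ h2
      have h4 : ((n : ℝ) + 3) ^ m ≤ 3 ^ m * ((n : ℝ) + 2) ^ m := by
        rw [← mul_pow]
        apply pow_le_pow_left₀ (by positivity)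
        have : (0 : ℝ) ≤ n := Nat.cast_nonneg _
        linarith
      calc C * ((n : ℝ) + 3) ^ m * q ^ n ≤ |C| * ((n : ℝ) + 3) ^ m * q ^ n := by
            gcongr
            exact le_abs_self C
        _ ≤ |C| * (3 ^ m * ((n : ℝ) + 2) ^ m) * q ^ n := by gcongr
        _ = |C| * 3 ^ m * q ^ n * ((n : ℝ) + 2) ^ m := by ring
    have h4 : (a n : ℝ) ^ 2 ≤ (Real.sqrt s ^ n * t n) ^ 2 := by
      calc (a n : ℝ) ^ 2 ≤ C * ((n : ℝ) + 3) ^ m * q ^ n * (t n : ℝ) ^ 2 := h1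
        _ ≤ s ^ n * (t n : ℝ) ^ 2 := mul_le_mul_of_nonneg_right h3 (by positivity)
        _ = (Real.sqrt s ^ n * t n) ^ 2 := by
          rw [mul_pow, ← pow_mul, mul_comm n 2, pow_mul, Real.sq_sqrt hs0.le]
    exact le_of_pow_le_pow_left₀ two_ne_zero (by positivity) h4

end Pool.Agent.E8helper32.Inf
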