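import Pool.Agent.E8helper32.Inf.Hm
import Pool.Agent.E8helper32.Inf.Rate

/-!
# Growth of the numerical rank on the powers
-/

set_option autoImplicit false

open CategoryTheory AlgebraicGeometry Polynomial

universe u v

namespace Pool.Agent.E8helper32.Inf

open Module
open Pool.Agent.H914 Pool.Agent.H914.VarClass Pool.Agent.H914.VarClass.Obj
  Pool.Agent.H914.WeilCohomology Pool.Agent.Y133.Half Pool.Agent.X252.SCT Pool.Agent.X252.SCK

variable {k : Type u} [Field k] {𝒱 : VarClass k} {ops : CycleOps 𝒱}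
  {W : WeilCohomology.{u, v} ops} {X Y Z Z' Z'' P Q V : 𝒱.Obj}

/-- `X^(b+N+1) × Y ≅ X^(N+1) × (X^b × Y)`. -/
noncomputable def twAdd (X Y : 𝒱.Obj) (b : ℕ) : ∀ N, tw X Y (b + N + 1) ≅
    (tw X X N).prod (tw X Y b)
  | 0 => Iso.refl (X.prod (tw X Y b))
  | N + 1 => prodCongr (Iso.refl X) (twAdd X Y b N) ≪≫ (θ₃ X (tw X X N) (tw X Y b)).symm

lemma compat_twAdd (e : Module.End W.K (W.H X)) (h : Module.End W.K (W.H Y)) (b : ℕ) :
    ∀ N, Compat W (twAdd X Y b N) (pin W X Y e h (b + N + 1))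
      (extOp W (pin W X X e e N) (pin W X Y e h b))
  | 0 => Compat.refl (W := W) (Z := X.prod (tw X Y b)) _
  | N + 1 => by
    have h1 := (compat_twAdd e h b N).prod e
    have h2 := (compat_θ₃ (W := W) e (pin W X X e e N) (pin W X Y e h b)).symm
    exact h1.trans h2

lemma ext_idem {e : Module.End W.K (W.H X)} {A : Module.End W.K (W.H Z)} (he : e * e = e)
    (hA : A * A = A) : extOp W e A * extOp W e A = extOp W e A := by
  rw [extOp_mul, he, hA]

lemma pin_idem {e : Module.End W.K (W.H X)} {h : Module.End W.K (W.H Y)} (he : e * e = e)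
    (hh : h * h = h) : ∀ n, pin W X Y e h n * pin W X Y e h n = pin W X Y e h n
  | 0 => hh
  | n + 1 => ext_idem (Z := tw X Y n) he (pin_idem he hh n)

lemma finrank_tw (X Y : 𝒱.Obj) : ∀ n, finrank W.K (W.H (tw X Y n)) =
    finrank W.K (W.H X) ^ n * finrank W.K (W.H Y)
  | 0 => by rw [pow_zero, one_mul]; rfl
  | n + 1 => by
    have h := finrank_prod (W := W) X (tw X Y n)
    rw [finrank_tw X Y n] at h
    change finrank W.K (W.H (X.prod (tw X Y n))) = _
    rw [h, pow_succ]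
    ring

section growth

variable {S : Sys W} {e : Module.End W.K (W.H X)}

lemma en_le (S : Sys W) (P : 𝒱.Obj) (e : Module.End W.K (W.H P)) :
    en S P e ≤ finrank W.K (W.H P) ^ 2 := by
  have h1 : en S P e ≤ finrank W.K (S.Op P P) := LinearMap.finrank_range_le _
  refine h1.trans ((Submodule.finrank_le _).trans ?_)
  rw [Module.finrank_linearMap, pow_two]

lemma en_rate (S : Sys W) (X : 𝒱.Obj) (e : Module.End W.K (W.H X)) (a b : ℕ) :
    en S (tw X X a) (pin W X X e e a) * en S (tw X X b) (pin W X X e e b) ≤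
      en S (tw X X (b + a + 1)) (pin W X X e e (b + a + 1)) := by
  refine (en_mul S _ _).trans ?_
  exact (en_iso_eq (S := S) (compat_twAdd (W := W) (X := X) (Y := X) e e b a)).ge

/-- The numbers in the induction. -/
noncomputable def Bn (S : Sys W) (X : 𝒱.Obj) (e : Module.End W.K (W.H X)) (a n : ℕ) : ℕ :=
  en S ((tw X X a).prod (tw X X n)) (extOp W (pin W X X e e a)
    (1 : Module.End W.K (W.H (tw X X n))))

lemma move_iso {A : Module.End W.K (W.H P)} (hA : A ∈ S.Op P P)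
    {g : Module.End W.K (W.H X)} (hg : g ∈ S.Op X X) (d : Module.End W.K (W.H Z)) :
    en S (P.prod (X.prod Z)) (extOp W A (extOp W g d)) =
      en S (X.prod (P.prod Z)) (extOp W g (extOp W A d)) :=
  en_iso_eq (S := S) (compat_θ₁ d (Sys.Op.ev hg) (Sys.Op.ev hA))

lemma assoc_iso (a : Module.End W.K (W.H P)) (b : Module.End W.K (W.H Q))
    (d : Module.End W.K (W.H Z)) :
    en S ((P.prod Q).prod Z) (extOp W (extOp W a b) d) =
      en S (P.prod (Q.prod Z)) (extOp W a (extOp W b d)) :=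
  en_iso_eq (S := S) (compat_θ₃ a b d)

lemma Bn_step_aux {A : Module.End W.K (W.H P)} (hA : A ∈ S.Op P P) (hAA : A * A = A)
    (he : e ∈ S.Op X X) (hee : e * e = e) (h1 : 1 ≤ en S X (1 - e)) :
    en S ((X.prod P).prod Z) (extOp W (extOp W e A) (1 : Module.End W.K (W.H Z))) +
      en S (P.prod Z) (extOp W A (1 : Module.End W.K (W.H Z))) ≤
    en S (P.prod (X.prod Z)) (extOp W A (1 : Module.End W.K (W.H (X.prod Z)))) := by
  have he' : (1 - e) ∈ S.Op X X := Submodule.sub_mem _ Sys.Op.id he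
  have e1 : e * (1 - e) = 0 := by rw [mul_sub, mul_one, hee, sub_self]
  have e2 : (1 - e) * e = 0 := by rw [sub_mul, one_mul, hee, sub_self]
  have e3 : (1 - e) * (1 - e) = 1 - e := by rw [mul_sub, e2, mul_one, sub_zero]
  have h2 : extOp W A (1 : Module.End W.K (W.H (X.prod Z))) =
      extOp W A (extOp W e (1 : Module.End W.K (W.H Z))) +
      extOp W A (extOp W (1 - e) (1 : Module.End W.K (W.H Z))) := by
    rw [← extOp_add_right, ← extOp_add_left, add_sub_cancel, extOp_one]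
  rw [h2]
  refine le_trans ?_ (en_add (S := S) (Sys.Op.ext hA (Sys.Op.ext he Sys.Op.id))
    (Sys.Op.ext hA (Sys.Op.ext he' Sys.Op.id)) ?_ ?_ ?_ ?_)
  · apply Nat.add_le_add
    · rw [assoc_iso, move_iso hA he]
    · have h3 : en S (P.prod (X.prod Z)) (extOp W A (extOp W (1 - e)
          (1 : Module.End W.K (W.H Z)))) = _ := move_iso hA he' 1
      have h4 := en_mul S (1 - e) (extOp W A (1 : Module.End W.K (W.H Z)))
      calc en S (P.prod Z) (extOp W A (1 : Module.End W.K (W.H Z)))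
          = 1 * en S (P.prod Z) (extOp W A (1 : Module.End W.K (W.H Z))) := (one_mul _).symm
        _ ≤ _ := Nat.mul_le_mul_right _ h1
        _ ≤ _ := h4
        _ = _ := h3.symm
  · rw [extOp_mul, extOp_mul, hAA, hee, mul_one]
  · rw [extOp_mul, extOp_mul, hAA, e3, mul_one]
  · rw [extOp_mul, extOp_mul, e1, extOp_zero_left, extOp_zero_right]
  · rw [extOp_mul, extOp_mul, e2, extOp_zero_left, extOp_zero_right]

lemma Bn_step (he : e ∈ S.Op X X) (hee : e * e = e) (h1 : 1 ≤ en S X (1 - e)) (a n : ℕ) :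
    Bn S X e (a + 1) n + Bn S X e a n ≤ Bn S X e a (n + 1) :=
  Bn_step_aux (P := tw X X a) (Z := tw X X n) (pin_mem he he a) (pin_idem hee hee a) he hee h1

lemma Bn_zero (h1 : 1 ≤ en S X 1) (a : ℕ) :
    en S (tw X X a) (pin W X X e e a) ≤ Bn S X e a 0 := by
  have h4 := en_mul (P := tw X X a) (Q := X) S (pin W X X e e a) 1
  calc en S (tw X X a) (pin W X X e e a) = en S (tw X X a) (pin W X X e e a) * 1 :=
        (mul_one _).symm
    _ ≤ _ := Nat.mul_le_mul_left _ h1
    _ ≤ _ := h4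

/-- Comparison of the numerical ranks on the powers. -/
lemma rate (he : e ∈ S.Op X X) (hee : e * e = e) (h0 : 1 ≤ en S X e)
    (h1 : 1 ≤ en S X (1 - e)) :
    ∃ c : ℝ, 1 ≤ c ∧ (∀ a, (en S (tw X X a) (pin W X X e e a) : ℝ) ≤ c ^ (a + 1)) ∧
      ∃ κ : ℝ, 0 < κ ∧ ∀ n, κ * (c + 1 / 2) ^ n ≤ Bn S X e 0 n := by
  have hM : ∀ a, (en S (tw X X a) (pin W X X e e a) : ℝ) ≤
      (((finrank W.K (W.H X) : ℝ)) ^ 2) ^ (a + 1) := by
    intro a
    have h2 := en_le S (tw X X a) (pin W X X e e a)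
    rw [finrank_tw, ← pow_succ, ← pow_mul] at h2
    rw [← pow_mul, mul_comm 2]
    exact_mod_cast h2
  obtain ⟨c, hc1, hcU, hcL⟩ := exists_rate
    (g := fun a => en S (tw X X a) (pin W X X e e a)) h0 (en_rate S X e) (by positivity) hM
  obtain ⟨κ, hκ, hκL⟩ := hcL (c - 1 / 2) (by linarith) (by linarith)
  have h2 : 1 ≤ en S X 1 := by
    have h3 := en_add (S := S) (e := e) (f := 1 - e) he (Submodule.sub_mem _ Sys.Op.id he) hee
      (by rw [mul_sub, sub_mul, sub_mul, hee]; simp)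
      (by rw [mul_sub, mul_one, hee, sub_self]) (by rw [sub_mul, one_mul, hee, sub_self])
    rw [add_sub_cancel] at h3
    omega
  have h3 := binom_growth (Bn_step he hee h1) (Bn_zero h2) hκL
  refine ⟨c, hc1, hcU, κ * (c - 1 / 2), mul_pos hκ (by linarith), fun n => ?_⟩
  have h4 := h3 n 0
  rw [zero_add, pow_one] at h4
  have h5 : 1 + (c - 1 / 2) = c + 1 / 2 := by ring
  rwa [h5] at h4

lemma en_left_le (Z : 𝒱.Obj) (he : e ∈ S.Op X X) (hee : e * e = e) :
    en S (X.prod Z) (extOp W e (1 : Module.End W.K (W.H Z))) ≤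
      S.a ((X.prod Z).prod (X.prod Z)) := by
  rw [← en_one]
  have h1 : (1 : Module.End W.K (W.H (X.prod Z))) =
      extOp W e (1 : Module.End W.K (W.H Z)) + extOp W (1 - e) (1 : Module.End W.K (W.H Z)) := by
    rw [← extOp_add_left, add_sub_cancel, extOp_one]
  rw [h1]
  have he' : (1 - e) ∈ S.Op X X := Submodule.sub_mem _ Sys.Op.id he
  have e1 : e * (1 - e) = 0 := by rw [mul_sub, mul_one, hee, sub_self]
  have e2 : (1 - e) * e = 0 := by rw [sub_mul, one_mul, hee, sub_self]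
  have e3 : (1 - e) * (1 - e) = 1 - e := by rw [mul_sub, e2, mul_one, sub_zero]
  refine le_trans (Nat.le_add_right _ _) (en_add (S := S) (Sys.Op.ext he Sys.Op.id)
    (Sys.Op.ext he' Sys.Op.id) ?_ ?_ ?_ ?_)
  · rw [extOp_mul, hee, mul_one]
  · rw [extOp_mul, e3, mul_one]
  · rw [extOp_mul, e1, extOp_zero_left]
  · rw [extOp_mul, e2, extOp_zero_left]

lemma Bn_le (he : e ∈ S.Op X X) (hee : e * e = e) (n : ℕ) :
    Bn S X e 0 n ≤ S.a ((tw X X (n + 1)).prod (tw X X (n + 1))) :=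
  en_left_le (tw X X n) he hee

end growth

/-- The rank on `X^n × Y` is at least the rank on the square of a power. -/
lemma a_tw_ge (S : Sys W) (X Y : 𝒱.Obj) (r N : ℕ) (h : 1 ≤ S.a (tw X Y r)) :
    S.a ((tw X X N).prod (tw X X N)) ≤ S.a (tw X Y (r + N + 1 + N + 1)) := by
  set R := tw X X N with hR
  have h1 : S.a (tw X Y (r + N + 1 + N + 1)) = S.a (R.prod (tw X Y (r + N + 1))) :=
    S.a_iso (twAdd X Y (r + N + 1) N)
  have h2 : S.a (R.prod (tw X Y (r + N + 1))) = S.a (R.prod (R.prod (tw X Y r))) :=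
    S.a_iso (prodCongr (Iso.refl R) (twAdd X Y r N))
  have h3 : S.a ((R.prod R).prod (tw X Y r)) = S.a (R.prod (R.prod (tw X Y r))) :=
    S.a_iso (θ₃ R R (tw X Y r))
  rw [h1, h2, ← h3]
  calc S.a (R.prod R) = S.a (R.prod R) * 1 := (mul_one _).symm
    _ ≤ _ := Nat.mul_le_mul_left _ h
    _ ≤ _ := a_mul S _ _

/-- The upper bound for the part cut out by the idempotent. -/
lemma rk_pin (S : Sys W) {e : Module.End W.K (W.H X)} (he : e ∈ S.Op X X) (hee : e * e = e)
    (Y : 𝒱.Obj) (N : ℕ) : rk (S.F (tw X Y (0 + N + 1)) (pin W X Y e 1 (0 + N + 1))) ^ 2 ≤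
      en S (tw X X N) (pin W X X e e N) * en S Y 1 := by
  have h1 : rk (S.F (tw X Y (0 + N + 1)) (pin W X Y e 1 (0 + N + 1))) =
      S.r (tw X X N) (pin W X X e e N) Y :=
    S.rk_F_iso (twAdd X Y 0 N) (compat_twAdd (W := W) e 1 0 N)
  rw [h1]
  exact cs_r (pin_mem he he N) (pin_idem hee hee N) Y

end Pool.Agent.E8helper32.Inf
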