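import Pool.Agent.E8helper32.Inf.Factor

/-!
# Dimensions of the spaces of endomorphisms modulo numerical equivalence
-/

set_option autoImplicit false

open CategoryTheory AlgebraicGeometry Polynomial

universe u v

namespace Pool.Agent.E8helper32.Inf

open Module
open Pool.Agent.H914 Pool.Agent.H914.VarClass Pool.Agent.H914.VarClass.Obj
  Pool.Agent.H914.WeilCohomology Pool.Agent.Y133.Half Pool.Agent.X252.SCT Pool.Agent.X252.SCK

section rk

variable {K A B : Type*} [Field K] [AddCommGroup A] [Module K A] [AddCommGroup B] [Module K B]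
  [FiniteDimensional K A] [FiniteDimensional K B]

lemma card_le_rk {ι : Type*} [Fintype ι] [DecidableEq ι] {β : A →ₗ[K] B →ₗ[K] K} (x : ι → A)
    (y : ι → B) (h : ∀ i j, β (x i) (y j) = if i = j then 1 else 0) : Fintype.card ι ≤ rk β := by
  have h1 : LinearIndependent K (fun i => β (x i)) := by
    rw [Fintype.linearIndependent_iff]
    intro c hc j
    have h3 : (∑ i, c i • β (x i)) (y j) = 0 := by rw [hc]; rfl
    rw [LinearMap.sum_apply] at h3
    simp only [LinearMap.smul_apply, smul_eq_mul, h, mul_ite, mul_one, mul_zero,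
      Finset.sum_ite_eq', Finset.mem_univ, if_true] at h3
    exact h3
  have h2 : Submodule.span K (Set.range fun i => β (x i)) ≤ LinearMap.range β := by
    rw [Submodule.span_le]
    rintro _ ⟨i, rfl⟩
    exact ⟨x i, rfl⟩
  rw [← finrank_span_eq_card h1, rk]
  exact Submodule.finrank_mono h2

lemma exists_dual (β : A →ₗ[K] B →ₗ[K] K) : ∃ (x : Fin (rk β) → A) (y : Fin (rk β) → B),
    ∀ i j, β (x i) (y j) = if i = j then 1 else 0 := by
  obtain ⟨v, hv, hspan⟩ := exists_fam (V := Dual K B) (LinearMap.range β)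
  have hvr : ∀ i, ∃ x, β x = v i := fun i => by
    have : v i ∈ LinearMap.range β := by
      rw [← hspan]; exact Submodule.subset_span ⟨i, rfl⟩
    exact this
  choose x hx using hvr
  obtain ⟨y, hy⟩ := exists_dual_vectors hv
  exact ⟨x, y, fun i j => (congrArg (fun f : Dual K B => f (y j)) (hx i)).trans (hy i j)⟩

end rk

variable {k : Type u} [Field k] {𝒱 : VarClass k} {ops : CycleOps 𝒱}
  {W : WeilCohomology.{u, v} ops} {X Y Z Z' Z'' P Q V : 𝒱.Obj}

/-- The super trace. -/
noncomputable def st (W : WeilCohomology.{u, v} ops) (P : 𝒱.Obj) (x : Module.End W.K (W.H P)) :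
    W.K := LinearMap.trace W.K (W.H P) (par (W.isInternal P) * x)

lemma st_comm {S : Sys W} {x y : Module.End W.K (W.H P)} (hy : y ∈ S.Op P P) :
    st W P (x * y) = st W P (y * x) := by
  rw [st, st, ← mul_assoc, LinearMap.trace_mul_comm, ← mul_assoc, ← par_comm hy, mul_assoc]

lemma st_add (x y : Module.End W.K (W.H P)) : st W P (x + y) = st W P x + st W P y := by
  rw [st, mul_add, map_add]; rfl

lemma st_zero : st W P 0 = 0 := by rw [st, mul_zero, map_zero]

lemma par_prod : par (W.isInternal (P.prod Q)) =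
    extOp W (par (W.isInternal P)) (par (W.isInternal Q)) := by
  apply xp_ext
  intro i j a ha b hb
  rw [PH.par (xp_mem ha hb), extOp_xp, PH.par ha, PH.par hb, xp_smul_left, xp_smul_right,
    smul_smul, pow_add]

lemma trace_extOp (a : Module.End W.K (W.H P)) (b : Module.End W.K (W.H Q)) :
    LinearMap.trace W.K _ (extOp W a b) = LinearMap.trace W.K _ a * LinearMap.trace W.K _ b := by
  have h4 : extOp W a b = (kappa W P Q).conj (TensorProduct.map a b) := by
    rw [LinearEquiv.conj_apply, extOp, LinearMap.comp_assoc]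
  rw [h4, LinearMap.trace_conj', LinearMap.trace_tensorProduct']

lemma st_ext (a : Module.End W.K (W.H P)) (b : Module.End W.K (W.H Q)) :
    st W (P.prod Q) (extOp W a b) = st W P a * st W Q b := by
  rw [st, par_prod, extOp_mul, trace_extOp]; rfl

/-- The dimension of the space of the endomorphisms of the motive `(P, e)` modulo numerical
equivalence. -/
noncomputable def en (S : Sys W) (P : 𝒱.Obj) (e : Module.End W.K (W.H P)) : ℕ :=
  rk (A := S.Op P P) (B := S.Op P P) (S.BO P P e e)

variable {S : Sys W}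

lemma le_en {ι : Type} [Fintype ι] [DecidableEq ι] {e : Module.End W.K (W.H P)}
    (x y : ι → Module.End W.K (W.H P)) (hx : ∀ i, x i ∈ S.Op P P) (hy : ∀ i, y i ∈ S.Op P P)
    (h : ∀ i j, st W P (e * (x i * (e * y j))) = if i = j then 1 else 0) :
    Fintype.card ι ≤ en S P e :=
  card_le_rk (A := S.Op P P) (B := S.Op P P) (fun i => ⟨x i, hx i⟩) (fun i => ⟨y i, hy i⟩) h

lemma exists_en (S : Sys W) (P : 𝒱.Obj) (e : Module.End W.K (W.H P)) :
    ∃ x y : Fin (en S P e) → Module.End W.K (W.H P), (∀ i, x i ∈ S.Op P P) ∧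
      (∀ i, y i ∈ S.Op P P) ∧ ∀ i j, st W P (e * (x i * (e * y j))) = if i = j then 1 else 0 := by
  obtain ⟨x, y, h⟩ := exists_dual (A := S.Op P P) (B := S.Op P P) (S.BO P P e e)
  exact ⟨fun i => (x i : W.H P →ₗ[W.K] W.H P), fun i => (y i : W.H P →ₗ[W.K] W.H P),
    fun i => (x i).2, fun i => (y i).2, h⟩

/-- Orthogonal idempotents. -/
lemma en_add {e f : Module.End W.K (W.H P)} (he : e ∈ S.Op P P) (hf : f ∈ S.Op P P)
    (hee : e * e = e) (hff : f * f = f) (hef : e * f = 0) (hfe : f * e = 0) :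
    en S P e + en S P f ≤ en S P (e + f) := by
  obtain ⟨x, y, hx, hy, h⟩ := exists_en S P e
  obtain ⟨x', y', hx', hy', h'⟩ := exists_en S P f
  have h1 := le_en (S := S) (P := P) (e := e + f) (ι := Fin (en S P e) ⊕ Fin (en S P f))
    (Sum.elim (fun i => e * x i * e) (fun i => f * x' i * f))
    (Sum.elim (fun i => e * y i * e) (fun i => f * y' i * f)) ?_ ?_ ?_
  · rwa [Fintype.card_sum, Fintype.card_fin, Fintype.card_fin] at h1
  · rintro (i | i)
    · exact Sys.Op.comp (Sys.Op.comp he (hx i)) he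
    · exact Sys.Op.comp (Sys.Op.comp hf (hx' i)) hf
  · rintro (i | i)
    · exact Sys.Op.comp (Sys.Op.comp he (hy i)) he
    · exact Sys.Op.comp (Sys.Op.comp hf (hy' i)) hf
  · have a1 : (e + f) * e = e := by rw [add_mul, hee, hfe, add_zero]
    have a2 : (e + f) * f = f := by rw [add_mul, hff, hef, zero_add]
    rintro (i | i) (j | j)
    · simp only [Sum.elim_inl, Sum.inl.injEq]
      rw [← h i j]
      have : (e + f) * (e * x i * e * ((e + f) * (e * y j * e))) = (e * x i * (e * y j)) * e := by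
        calc (e + f) * (e * x i * e * ((e + f) * (e * y j * e)))
            = ((e + f) * e) * x i * e * (((e + f) * e) * y j * e) := by simp only [mul_assoc]
          _ = e * x i * (e * e) * y j * e := by rw [a1]; simp only [mul_assoc]
          _ = _ := by rw [hee]; simp only [mul_assoc]
      rw [this, st_comm he]
      congr 1
      simp only [← mul_assoc]
      rw [hee]
    · simp only [Sum.elim_inl, Sum.elim_inr, reduceCtorEq, if_false]
      have : (e + f) * (e * x i * e * ((e + f) * (f * y' j * f))) = 0 := by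
        calc (e + f) * (e * x i * e * ((e + f) * (f * y' j * f)))
            = (e + f) * (e * x i * (e * (((e + f) * f) * (y' j * f)))) := by
              simp only [mul_assoc]
          _ = (e + f) * (e * x i * ((e * f) * (y' j * f))) := by rw [a2]; simp only [mul_assoc]
          _ = 0 := by rw [hef]; simp
      rw [this, st_zero]
    · simp only [Sum.elim_inl, Sum.elim_inr, reduceCtorEq, if_false]
      have : (e + f) * (f * x' i * f * ((e + f) * (e * y j * e))) = 0 := by
        calc (e + f) * (f * x' i * f * ((e + f) * (e * y j * e)))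
            = (e + f) * (f * x' i * (f * (((e + f) * e) * (y j * e)))) := by
              simp only [mul_assoc]
          _ = (e + f) * (f * x' i * ((f * e) * (y j * e))) := by rw [a1]; simp only [mul_assoc]
          _ = 0 := by rw [hfe]; simp
      rw [this, st_zero]
    · simp only [Sum.elim_inr, Sum.inr.injEq]
      rw [← h' i j]
      have : (e + f) * (f * x' i * f * ((e + f) * (f * y' j * f))) =
          (f * x' i * (f * y' j)) * f := by
        calc (e + f) * (f * x' i * f * ((e + f) * (f * y' j * f)))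
            = ((e + f) * f) * x' i * f * (((e + f) * f) * y' j * f) := by simp only [mul_assoc]
          _ = f * x' i * (f * f) * y' j * f := by rw [a2]; simp only [mul_assoc]
          _ = _ := by rw [hff]; simp only [mul_assoc]
      rw [this, st_comm hf]
      congr 1
      simp only [← mul_assoc]
      rw [hff]

/-- Products. -/
lemma en_mul (S : Sys W) (e : Module.End W.K (W.H P)) (f : Module.End W.K (W.H Q)) :
    en S P e * en S Q f ≤ en S (P.prod Q) (extOp W e f) := by
  obtain ⟨x, y, hx, hy, h⟩ := exists_en S P e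
  obtain ⟨x', y', hx', hy', h'⟩ := exists_en S Q f
  have h1 := le_en (S := S) (P := P.prod Q) (e := extOp W e f)
    (ι := Fin (en S P e) × Fin (en S Q f)) (fun i => extOp W (x i.1) (x' i.2))
    (fun i => extOp W (y i.1) (y' i.2)) (fun i => Sys.Op.ext (hx _) (hx' _))
    (fun i => Sys.Op.ext (hy _) (hy' _)) ?_
  · rwa [Fintype.card_prod, Fintype.card_fin, Fintype.card_fin] at h1
  · rintro ⟨i, i'⟩ ⟨j, j'⟩
    simp only [extOp_mul, st_ext, h, h', Prod.mk.injEq]
    by_cases h1 : i = j <;> by_cases h2 : i' = j' <;> simp [h1, h2]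

/-- Isomorphisms. -/
lemma en_iso {θ : Z' ≅ Z} {e' : Module.End W.K (W.H Z')} {e : Module.End W.K (W.H Z)}
    (h : Compat W θ e' e) : en S Z e ≤ en S Z' e' := by
  obtain ⟨x, y, hx, hy, hxy⟩ := exists_en S Z e
  set f : W.H Z →ₗ[W.K] W.H Z' := (W.map θ.hom).toLinearMap with hf
  set g : W.H Z' →ₗ[W.K] W.H Z := (W.map θ.inv).toLinearMap with hg
  have hfO : f ∈ S.Op Z Z' := Sys.Op.map _
  have hgO : g ∈ S.Op Z' Z := Sys.Op.map _
  have hgf : g ∘ₗ f = LinearMap.id := LinearMap.ext fun x => map_inv_hom θ x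
  have hef : e' ∘ₗ f = f ∘ₗ e := LinearMap.ext fun x => h x
  have h1 := le_en (S := S) (P := Z') (e := e') (ι := Fin (en S Z e))
    (fun i => f ∘ₗ x i ∘ₗ g) (fun i => f ∘ₗ y i ∘ₗ g)
    (fun i => Sys.Op.comp hfO (Sys.Op.comp (hx i) hgO))
    (fun i => Sys.Op.comp hfO (Sys.Op.comp (hy i) hgO)) ?_
  · rwa [Fintype.card_fin] at h1
  · intro i j
    rw [← hxy i j]
    have h2 : e' * ((f ∘ₗ x i ∘ₗ g) * (e' * (f ∘ₗ y j ∘ₗ g))) =
        f ∘ₗ (e * (x i * (e * y j))) ∘ₗ g := by
      apply LinearMap.ext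
      intro t
      change e' (f (x i (g (e' (f (y j (g t))))))) = f (e (x i (e (y j (g t)))))
      have h3 : ∀ s, e' (f s) = f (e s) := h
      have h4 : ∀ s, g (f s) = s := map_inv_hom θ
      rw [h3, h3, h4]
    rw [h2, st, st]
    have h3 : par (W.isInternal Z') ∘ₗ f = f ∘ₗ par (W.isInternal Z) :=
      (Sys.Op.ev hfO).par_comm
    change LinearMap.trace W.K (W.H Z') (par (W.isInternal Z') ∘ₗ f ∘ₗ
      (e * (x i * (e * y j))) ∘ₗ g) = LinearMap.trace W.K (W.H Z) (par (W.isInternal Z) ∘ₗ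
        (e * (x i * (e * y j))))
    rw [← LinearMap.comp_assoc _ f, h3, LinearMap.comp_assoc, LinearMap.trace_comp_comm']
    congr 1
    rw [LinearMap.comp_assoc, LinearMap.comp_assoc, hgf, LinearMap.comp_id]

lemma en_iso_eq {θ : Z' ≅ Z} {e' : Module.End W.K (W.H Z')} {e : Module.End W.K (W.H Z)}
    (h : Compat W θ e' e) : en S Z' e' = en S Z e :=
  le_antisymm (en_iso h.symm) (en_iso h)

lemma en_pos {e v : Module.End W.K (W.H P)} (hee : e * e = e)
    (hv : v ∈ S.Op P P) (h : st W P (e * v) ≠ 0) : 1 ≤ en S P e := by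
  have h1 := le_en (S := S) (P := P) (e := e) (ι := Unit) (fun _ => 1)
    (fun _ => (st W P (e * v))⁻¹ • v) (fun _ => Sys.Op.id) (fun _ => Submodule.smul_mem _ _ hv) ?_
  · simpa using h1
  · intro i j
    rw [one_mul, ← mul_assoc, hee, mul_smul_comm, st, mul_smul_comm, map_smul, smul_eq_mul]
    simp only [if_true]
    exact inv_mul_cancel₀ h

lemma en_one (S : Sys W) (P : 𝒱.Obj) : en S P 1 = S.a (P.prod P) := by
  have h := S.rk_BO (M := P) (N := P) (g := 1) (g' := 1) (g'' := 1) Ev.one' Ev.one' Adj.one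
  rw [extOp_one] at h
  exact h

/-- The rank of the form on products. -/
lemma a_mul (S : Sys W) (P Q : 𝒱.Obj) : S.a P * S.a Q ≤ S.a (P.prod Q) := by
  obtain ⟨x, y, h⟩ := exists_dual (A := S.C P) (B := S.C P) (S.F P 1)
  obtain ⟨x', y', h'⟩ := exists_dual (A := S.C Q) (B := S.C Q) (S.F Q 1)
  have h1 := card_le_rk (A := S.C (P.prod Q)) (B := S.C (P.prod Q))
    (ι := Fin (S.a P) × Fin (S.a Q)) (β := S.F (P.prod Q) 1)
    (fun i => ⟨xp W (x i.1) (x' i.2), Sys.xp_mem_C S (x i.1).2 (x' i.2).2⟩)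
    (fun i => ⟨xp W (y i.1) (y' i.2), Sys.xp_mem_C S (y i.1).2 (y' i.2).2⟩) ?_
  · rwa [Fintype.card_prod, Fintype.card_fin, Fintype.card_fin] at h1
  · rintro ⟨i, i'⟩ ⟨j, j'⟩
    rw [Sys.F_apply]
    change W.tr _ (xp W (x i : W.H P) (x' i' : W.H Q) * xp W (y j : W.H P) (y' j' : W.H Q)) = _
    have e1 : W.tr P ((x i : W.H P) * (y j : W.H P)) = if i = j then 1 else 0 := h i j
    have e2 : W.tr Q ((x' i' : W.H Q) * (y' j' : W.H Q)) = if i' = j' then 1 else 0 := h' i' j'
    rw [xp_mul _ _ _ _ (S.even (x' i').2) (S.even (y j).2), zero_mul, pow_zero, one_smul, tr_xp,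
      e1, e2]
    simp only [Prod.mk.injEq]
    by_cases h1 : i = j <;> by_cases h2 : i' = j' <;> simp [h1, h2]

lemma a_pos' {l : W.H P} (hl : l ∈ S.C P) (h : W.tr P l ≠ 0) : 1 ≤ S.a P := by
  have h1 := card_le_rk (A := S.C P) (B := S.C P) (ι := Unit) (β := S.F P 1)
    (fun _ => ⟨1, S.one P⟩) (fun _ => ⟨(W.tr P l)⁻¹ • l, Submodule.smul_mem _ _ hl⟩) ?_
  · rw [Fintype.card_unit] at h1
    exact h1
  · intro i j
    rw [Sys.F_apply]
    change W.tr P (1 * ((W.tr P l)⁻¹ • l)) = _
    rw [one_mul, map_smul, smul_eq_mul, inv_mul_cancel₀ h]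
    simp

/-- The Cauchy-Schwarz inequality. -/
lemma cs_r {e : Module.End W.K (W.H P)} (he : e ∈ S.Op P P) (hee : e ∘ₗ e = e) (Y : 𝒱.Obj) :
    S.r P e Y ^ 2 ≤ en S P e * en S Y 1 := by
  let X : Fin 2 → 𝒱.Obj := ![P, Y]
  have key := (S.cat X).rk_B_sq_le' (i := 0) (j := 1) (g := e) he hee
    (g' := (LinearMap.id : W.H Y →ₗ[W.K] W.H Y)) Sys.Op.id rfl
  have h1 : rk (A := (S.cat X).S 0 1) (B := (S.cat X).S 1 0)
      ((S.cat X).B 0 1 e (LinearMap.id : W.H Y →ₗ[W.K] W.H Y)) = S.r P e Y :=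
    S.rk_BO_r (P := P) (Z := Y) (g := e) (Sys.Op.ev (S := S) he)
  rw [← h1]
  exact key

end Pool.Agent.E8helper32.Inf
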