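import Pool.Agent.E8helper32.Inf.Alg

/-!
# The ideal of the correspondences with algebraic Künneth components
-/

set_option autoImplicit false

open CategoryTheory AlgebraicGeometry Polynomial

universe u v

namespace Pool.Agent.E8helper32.Inf

open Module
open Pool.Agent.H914 Pool.Agent.H914.VarClass Pool.Agent.H914.VarClass.Obj
  Pool.Agent.H914.WeilCohomology Pool.Agent.Y133.Half Pool.Agent.X252.SCT Pool.Agent.X252.SCK

variable {k : Type u} [Field k] {𝒱 : VarClass k} {ops : CycleOps 𝒱}
  {W : WeilCohomology.{u, v} ops} {X Y Z Z' P Q : 𝒱.Obj} {T : Set ℕ}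

section lin

variable {K V : Type*} [Field K] [AddCommGroup V] [Module K V] [FiniteDimensional K V]

/-- A subspace of operators which is closed under products contains the Fitting projectors. -/
lemma fit_mem {J : Submodule K (Module.End K V)} (hJ : ∀ a ∈ J, ∀ b ∈ J, a * b ∈ J)
    {x : Module.End K V} (hx : x ∈ J) (q : K[X]) : aeval x q * x ∈ J := by
  induction q using Polynomial.induction_on' with
  | add p q hp hq => rw [map_add, add_mul]; exact Submodule.add_mem _ hp hq
  | monomial n a =>
    rw [aeval_monomial]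
    have h1 : x ^ n * x ∈ J := by
      induction n with
      | zero => rw [pow_zero, one_mul]; exact hx
      | succ n ih => rw [pow_succ]; exact hJ _ ih _ hx
    rw [mul_assoc, ← Algebra.smul_def]
    exact Submodule.smul_mem _ _ h1

lemma fit_comm (x : Module.End K V) (q : K[X]) : aeval x q * x = x * aeval x q := by
  have : Commute (aeval x q) (aeval x (X : K[X])) := by
    rw [Commute, SemiconjBy, ← map_mul, ← map_mul, mul_comm]
  rw [aeval_X] at this
  exact this

lemma rank_add {e f : Module.End K V} [CharZero K] (he : e * e = e) (hf : f * f = f)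
    (hef : e * f = 0) (hfe : f * e = 0) (h0 : f ≠ 0) :
    finrank K (LinearMap.range e) < finrank K (LinearMap.range (e + f)) := by
  have h1 : (e + f) * (e + f) = e + f := by
    rw [add_mul, mul_add, mul_add, he, hf, hef, hfe, add_zero, zero_add]
  have t1 := trace_idem (K := K) (f := e) he
  have t2 := trace_idem (K := K) (f := f) hf
  have t3 := trace_idem (K := K) (f := e + f) h1
  rw [map_add, t1, t2] at t3
  have h2 : finrank K (LinearMap.range e) + finrank K (LinearMap.range f) =
      finrank K (LinearMap.range (e + f)) := by exact_mod_cast t3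
  have h3 : finrank K (LinearMap.range f) ≠ 0 := by
    intro h
    exact h0 (LinearMap.range_eq_bot.1 (Submodule.finrank_eq_zero.1 h))
  omega

/-- There is an idempotent of maximal rank; the complement annihilates the subspace up to
nilpotent operators. -/
lemma exists_max_idem [CharZero K] {J : Submodule K (Module.End K V)}
    (hJ : ∀ a ∈ J, ∀ b ∈ J, a * b ∈ J) :
    ∃ e ∈ J, e * e = e ∧ ∀ x ∈ J, IsNilpotent ((1 - e) * x * (1 - e)) := by
  classical
  let Q : ℕ → Prop := fun n => ∃ e ∈ J, e * e = e ∧ finrank K V - finrank K (LinearMap.range e) = n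
  have hQ : ∃ n, Q n := ⟨_, 0, Submodule.zero_mem _, mul_zero _, rfl⟩
  obtain ⟨e, he, hee, hn⟩ := Nat.find_spec hQ
  have hmax : ∀ f ∈ J, f * f = f → finrank K (LinearMap.range f) ≤
      finrank K (LinearMap.range e) := by
    intro f hf hff
    by_contra hlt
    push Not at hlt
    have h1 : finrank K (LinearMap.range f) ≤ finrank K V := Submodule.finrank_le _
    exact Nat.find_min hQ (m := finrank K V - finrank K (LinearMap.range f)) (by omega)
      ⟨f, hf, hff, rfl⟩
  refine ⟨e, he, hee, fun x hx => ?_⟩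
  set y := (1 - e) * x * (1 - e) with hy
  have hyJ : y ∈ J := by
    have h1 : y = x - e * x - (x - e * x) * e := by rw [hy]; noncomm_ring
    rw [h1]
    have h2 : x - e * x ∈ J := Submodule.sub_mem _ hx (hJ _ he _ hx)
    exact Submodule.sub_mem _ h2 (hJ _ h2 _ he)
  have he1 : (1 - e) * e = 0 := by rw [sub_mul, one_mul, hee, sub_self]
  have he2 : e * (1 - e) = 0 := by rw [mul_sub, mul_one, hee, sub_self]
  have hye : y * e = 0 := by
    rw [hy, mul_assoc, he1, mul_zero]
  have hey : e * y = 0 := by
    rw [hy, ← mul_assoc, ← mul_assoc, he2, zero_mul, zero_mul]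
  obtain ⟨q, hq1, hq2⟩ := exists_fit y
  apply hq2
  by_contra hne
  have h1 : e * (aeval y q * y) = 0 := by rw [fit_comm, ← mul_assoc, hey, zero_mul]
  have h2 : (aeval y q * y) * e = 0 := by rw [mul_assoc, hye, mul_zero]
  have h3 := rank_add hee hq1 h1 h2 hne
  have h4 := hmax (e + aeval y q * y) (Submodule.add_mem _ he (fit_mem hJ hyJ q)) (by
    rw [add_mul, mul_add, mul_add, hee, hq1, h1, h2, add_zero, zero_add])
  omega

end lin

section alg

lemma isAlg_op {φ : Module.End W.K (W.H X)} (h : IsAlg W X φ) : φ ∈ (aSys W).Op X X := by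
  obtain ⟨z, hz, rfl⟩ := h
  exact Sys.Op.corr (cl_mem_C hz)

lemma isAlg_kop {φ : Module.End W.K (W.H X)} (h : IsAlg W X φ) : φ ∈ KOp W X X 0 := by
  obtain ⟨z, hz, rfl⟩ := h
  exact KOp.gen (by simp) hz

lemma KOp.map_gr {φ : Module.End W.K (W.H X)} (h : φ ∈ KOp W X X 0) {j : ℕ} {x : W.H X}
    (hx : x ∈ W.gr X j) : φ x ∈ W.gr X j := by
  have h1 := KOp.isHom h j x (by rw [grZ_natCast]; exact hx)
  rw [mul_zero, add_zero, grZ_natCast] at h1
  exact h1

lemma isAlg_one : IsAlg W X 1 := by
  have h := IsAlg.map (W := W) (𝟙 X)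
  have h1 : (W.map (𝟙 X)).toLinearMap = (1 : Module.End W.K (W.H X)) := by
    apply LinearMap.ext
    intro x
    exact W.map_id X x
  rwa [h1] at h

lemma isAlg_neg {φ : Module.End W.K (W.H X)} (h : IsAlg W X φ) : IsAlg W X (-φ) := by
  have h1 := h.smul (-1)
  have h2 : (((-1 : ℚ) : W.K)) • φ = -φ := by
    apply LinearMap.ext
    intro x
    rw [LinearMap.smul_apply, Rat.cast_neg, Rat.cast_one, neg_one_smul, LinearMap.neg_apply]
  rwa [h2] at h1

lemma isAlg_sub {φ ψ : Module.End W.K (W.H X)} (h : IsAlg W X φ) (h' : IsAlg W X ψ) :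
    IsAlg W X (φ - ψ) := by
  rw [sub_eq_add_neg]
  exact IsAlg.add h (isAlg_neg h')

lemma projT_comm {φ : Module.End W.K (W.H X)} (h : φ ∈ KOp W X X 0) :
    φ * projT W X T = projT W X T * φ := by
  apply gr_ext (W.isInternal X)
  intro j x hx
  rw [Module.End.mul_apply, Module.End.mul_apply]
  by_cases hj : j ∈ T
  · rw [projT_in hj hx, projT_in hj (KOp.map_gr h hx)]
  · rw [projT_out hj hx, projT_out hj (KOp.map_gr h hx), map_zero]

lemma projT_idem : projT W X T * projT W X T = projT W X T := by
  apply gr_ext (W.isInternal X)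
  intro j x hx
  rw [Module.End.mul_apply]
  by_cases hj : j ∈ T
  · rw [projT_in hj hx, projT_in hj hx]
  · rw [projT_out hj hx, map_zero]

lemma degreesAlg_iff : DegreesAlg W X T ↔ IsAlg W X (projT W X T) := by
  constructor
  · rintro ⟨z, hz, h⟩
    refine ⟨z, hz, ?_⟩
    apply gr_ext (W.isInternal X)
    intro j x hx
    change cyAct W z x = _
    by_cases hj : j ∈ T
    · rw [(h j x hx).1 hj, projT_in hj hx]
    · rw [(h j x hx).2 hj, projT_out hj hx]
  · rintro ⟨z, hz, h⟩
    exact ⟨z, hz, fun j x hx => ⟨fun hj => by rw [cyAct, h, projT_in hj hx],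
      fun hj => by rw [cyAct, h, projT_out hj hx]⟩⟩

variable (W X T) in
/-- The algebraic operators whose product with the projector is algebraic. -/
def idI : Set (Module.End W.K (W.H X)) := {u | IsAlg W X u ∧ IsAlg W X (projT W X T * u)}

variable (W X T) in
/-- The span of the ideal `idI`. -/
def idJ : Submodule W.K (Module.End W.K (W.H X)) := Submodule.span W.K (idI W X T)

lemma idI_mul {u v : Module.End W.K (W.H X)} (hu : u ∈ idI W X T) (hv : v ∈ idI W X T) :
    u * v ∈ idI W X T :=
  ⟨hu.1.mul hv.1, by rw [← mul_assoc]; exact hu.2.mul hv.1⟩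

lemma idJ_mul : ∀ a ∈ idJ W X T, ∀ b ∈ idJ W X T, a * b ∈ idJ W X T := by
  intro a ha b hb
  refine Submodule.span_induction (p := fun a _ => a * b ∈ idJ W X T) ?_ ?_ ?_ ?_ ha
  · intro u hu
    refine Submodule.span_induction (p := fun b _ => u * b ∈ idJ W X T) ?_ ?_ ?_ ?_ hb
    · intro v hv
      exact Submodule.subset_span (idI_mul hu hv)
    · rw [mul_zero]; exact Submodule.zero_mem _
    · intro x y _ _ hx hy; rw [mul_add]; exact Submodule.add_mem _ hx hy
    · intro t x _ hx; rw [mul_smul_comm]; exact Submodule.smul_mem _ _ hx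
  · rw [zero_mul]; exact Submodule.zero_mem _
  · intro x y _ _ hx hy; rw [add_mul]; exact Submodule.add_mem _ hx hy
  · intro t x _ hx; rw [smul_mul_assoc]; exact Submodule.smul_mem _ _ hx

lemma idJ_KOp {x : Module.End W.K (W.H X)} (hx : x ∈ idJ W X T) : x ∈ KOp W X X 0 := by
  refine Submodule.span_le.2 ?_ hx
  intro u hu
  exact isAlg_kop hu.1

lemma idJ_Op {x : Module.End W.K (W.H X)} (hx : x ∈ idJ W X T) : x ∈ (aSys W).Op X X := by
  refine Submodule.span_le.2 ?_ hx
  intro u hu
  exact isAlg_op hu.1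

lemma idJ_proj {x : Module.End W.K (W.H X)} (hx : x ∈ idJ W X T) :
    projT W X T * x ∈ (aSys W).Op X X := by
  refine Submodule.span_induction (p := fun x _ => projT W X T * x ∈ (aSys W).Op X X)
    ?_ ?_ ?_ ?_ hx
  · intro u hu; exact isAlg_op hu.2
  · rw [mul_zero]; exact Submodule.zero_mem _
  · intro x y _ _ hx hy; rw [mul_add]; exact Submodule.add_mem _ hx hy
  · intro t x _ hx; rw [mul_smul_comm]; exact Submodule.smul_mem _ _ hx

end alg

end Pool.Agent.E8helper32.Inf
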