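import Pool.Agent.E8helper32.Inf.Ideal

/-!
# The maximal idempotent of the ideal
-/

set_option autoImplicit false

open CategoryTheory AlgebraicGeometry Polynomial

universe u v

namespace Pool.Agent.E8helper32.Inf

open Module
open Pool.Agent.H914 Pool.Agent.H914.VarClass Pool.Agent.H914.VarClass.Obj
  Pool.Agent.H914.WeilCohomology Pool.Agent.Y133.Half Pool.Agent.X252.SCT Pool.Agent.X252.SCK

variable {k : Type u} [Field k] {𝒱 : VarClass k} {ops : CycleOps 𝒱}
  {W : WeilCohomology.{u, v} ops} {X Y Z Z' P Q : 𝒱.Obj} {T : Set ℕ}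

lemma par_comm {S : Sys W} {x : Module.End W.K (W.H X)} (hx : x ∈ S.Op X X) :
    par (W.isInternal X) * x = x * par (W.isInternal X) := (Sys.Op.ev hx).par_comm

lemma par_sq : par (W.isInternal X) * par (W.isInternal X) = 1 := par_mul_par _

/-- The super trace of a nilpotent operator vanishes. -/
lemma tr_nilp {S : Sys W} {x : Module.End W.K (W.H X)} (hx : x ∈ S.Op X X) (hn : IsNilpotent x) :
    LinearMap.trace W.K (W.H X) (par (W.isInternal X) * x) = 0 := by
  have h2 : IsNilpotent (par (W.isInternal X) * x) := by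
    obtain ⟨n, hn⟩ := hn
    refine ⟨n, ?_⟩
    have hc : Commute (par (W.isInternal X)) x := par_comm hx
    rw [hc.mul_pow, hn, mul_zero]
  exact (LinearMap.isNilpotent_trace_of_isNilpotent h2).eq_zero

lemma trace_ne_zero {e : Module.End W.K (W.H X)} (he : e * e = e) (h0 : e ≠ 0) :
    LinearMap.trace W.K (W.H X) e ≠ 0 := by
  rw [trace_idem (K := W.K) (f := e) he]
  intro h
  have h1 : finrank W.K (LinearMap.range e) = 0 := by exact_mod_cast h
  exact h0 (LinearMap.range_eq_bot.1 (Submodule.finrank_eq_zero.1 h1))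

/-- The maximal idempotent of the ideal. -/
lemma exists_eps (W : WeilCohomology.{u, v} ops) (X : 𝒱.Obj) (T : Set ℕ) :
    ∃ e ∈ idJ W X T, e * e = e ∧ ∀ u ∈ idI W X T,
      LinearMap.trace W.K (W.H X) (par (W.isInternal X) * ((1 - e) * u)) = 0 := by
  obtain ⟨e, he, hee, h⟩ := exists_max_idem (idJ_mul (W := W) (X := X) (T := T))
  refine ⟨e, he, hee, fun u hu => ?_⟩
  have huJ : u ∈ idJ W X T := Submodule.subset_span hu
  have h1 := h u huJ
  have h2 : (1 - e) * u * (1 - e) ∈ (aSys W).Op X X := by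
    have h3 : (1 - e) * u * (1 - e) = u - e * u - (u - e * u) * e := by
      rw [mul_sub, mul_one, sub_mul, one_mul]
    rw [h3]
    have h4 : u - e * u ∈ idJ W X T := Submodule.sub_mem _ huJ (idJ_mul _ he _ huJ)
    exact idJ_Op (Submodule.sub_mem _ h4 (idJ_mul _ h4 _ he))
  have h3 := tr_nilp h2 h1
  have h4 : (1 - e) * (1 - e) = 1 - e := by
    rw [mul_sub, sub_mul, sub_mul, hee]; simp
  have h5 : par (W.isInternal X) * (1 - e) = (1 - e) * par (W.isInternal X) :=
    par_comm (S := aSys W) (Submodule.sub_mem _ (isAlg_op isAlg_one) (idJ_Op he))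
  calc LinearMap.trace W.K (W.H X) (par (W.isInternal X) * ((1 - e) * u))
      = LinearMap.trace W.K (W.H X) (par (W.isInternal X) * (((1 - e) * (1 - e)) * u)) := by
        rw [h4]
    _ = LinearMap.trace W.K (W.H X) ((1 - e) * (par (W.isInternal X) * ((1 - e) * u))) := by
        congr 1
        rw [mul_assoc, ← mul_assoc (par (W.isInternal X)) (1 - e), h5, mul_assoc]
    _ = LinearMap.trace W.K (W.H X) ((par (W.isInternal X) * ((1 - e) * u)) * (1 - e)) :=
        LinearMap.trace_mul_comm _ _ _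
    _ = 0 := by rw [← h3]; congr 1

section rational

/-- The intersection number of two correspondences. -/
lemma trace_cl_cl {a b : (X.prod X).Cycles} (ha : (X.prod X).IsCyc X.dim a)
    (hb : (X.prod X).IsCyc X.dim b) :
    ∃ r : ℚ, LinearMap.trace W.K (W.H X) (par (W.isInternal X) *
      (W.corr (W.cl _ a) * W.corr (W.cl _ b))) = (r : W.K) := by
  have h := trace_corr_corr (W := W) (W.cl _ a) (W.cl _ b)
  rw [← W.cl_pull, ← W.cl_mul] at h
  refine ⟨(X.prod X).V.degCycle (ops.mul a (ops.pull (swap X X) b)), ?_⟩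
  rw [← W.tr_cl (by
    rw [dim_prod]
    exact ops.mul_mem ha (ops.pull_mem _ hb))]
  exact h

/-- The trace with a correspondence of another codimension vanishes. -/
lemma trace_cl_ne {γ : W.H (X.prod X)} (hγ : γ ∈ W.gr _ (2 * X.dim)) {j : ℕ}
    {b : (X.prod X).Cycles} (hb : (X.prod X).IsCyc j b) (hj : j ≠ X.dim) :
    LinearMap.trace W.K (W.H X) (par (W.isInternal X) * (W.corr γ * W.corr (W.cl _ b))) = 0 := by
  have h := trace_corr_corr (W := W) γ (W.cl _ b)
  have h1 : γ * W.map (swap X X) (W.cl _ b) ∈ W.gr (X.prod X) (2 * X.dim + 2 * j) :=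
    W.mul_mem hγ (W.map_mem _ (W.cl_mem hb))
  rw [W.tr_eq_zero h1 (by rw [dim_prod]; omega)] at h
  exact h

/-- A rational functional on the coefficient field. -/
lemma exists_phi (K : Type*) [Field K] [CharZero K] : ∃ φ : K →ₗ[ℚ] ℚ, φ 1 = 1 := by
  have h1 : LinearMap.ker (Algebra.linearMap ℚ K) = ⊥ :=
    LinearMap.ker_eq_bot.2 (algebraMap ℚ K).injective
  obtain ⟨φ, hφ⟩ := (Algebra.linearMap ℚ K).exists_leftInverse_of_injective h1
  refine ⟨φ, ?_⟩
  have := congrArg (fun f : ℚ →ₗ[ℚ] ℚ => f 1) hφ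
  simpa using this

lemma phi_cast {K : Type*} [Field K] [CharZero K] (φ : K →ₗ[ℚ] ℚ) (t : K) (r : ℚ) :
    φ (t * (r : K)) = r * φ t := by
  have : t * (r : K) = r • t := by rw [Rat.smul_def, mul_comm]
  rw [this, map_smul, smul_eq_mul]

/-- A functional applied to an element of the span of the ideal. -/
lemma exists_descent {x : Module.End W.K (W.H X)} (hx : x ∈ idJ W X T) :
    ∀ φ : W.K →ₗ[ℚ] ℚ, ∃ u ∈ idI W X T, ∀ b, (X.prod X).IsCyc X.dim b →
      LinearMap.trace W.K (W.H X) (par (W.isInternal X) * (u * W.corr (W.cl _ b))) =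
        ((φ (LinearMap.trace W.K (W.H X) (par (W.isInternal X) *
          (x * W.corr (W.cl _ b)))) : ℚ) : W.K) := by
  refine Submodule.span_induction (p := fun x _ => ∀ φ : W.K →ₗ[ℚ] ℚ, ∃ u ∈ idI W X T,
    ∀ b, (X.prod X).IsCyc X.dim b →
      LinearMap.trace W.K (W.H X) (par (W.isInternal X) * (u * W.corr (W.cl _ b))) =
        ((φ (LinearMap.trace W.K (W.H X) (par (W.isInternal X) *
          (x * W.corr (W.cl _ b)))) : ℚ) : W.K)) ?_ ?_ ?_ ?_ hx
  · intro u hu φ
    refine ⟨((φ 1 : ℚ) : W.K) • u, ⟨hu.1.smul _, ?_⟩, fun b hb => ?_⟩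
    · rw [mul_smul_comm]; exact hu.2.smul _
    · obtain ⟨a, ha, ha'⟩ := hu.1
      obtain ⟨r, hr⟩ := trace_cl_cl (W := W) ha hb
      rw [ha'] at hr
      rw [smul_mul_assoc, mul_smul_comm, map_smul, hr]
      have := phi_cast φ 1 r
      rw [one_mul] at this
      rw [this]
      push_cast
      rw [smul_eq_mul, mul_comm]
  · intro φ
    refine ⟨0, ⟨IsAlg.zero, ?_⟩, fun b _ => ?_⟩
    · rw [mul_zero]; exact IsAlg.zero
    · rw [zero_mul, mul_zero, map_zero, map_zero, Rat.cast_zero]
  · intro x y _ _ hx hy φ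
    obtain ⟨u, hu, hu'⟩ := hx φ
    obtain ⟨w, hw, hw'⟩ := hy φ
    refine ⟨u + w, ⟨hu.1.add hw.1, ?_⟩, fun b hb => ?_⟩
    · rw [mul_add]; exact hu.2.add hw.2
    · rw [add_mul, mul_add, map_add, hu' b hb, hw' b hb, add_mul, mul_add, map_add, map_add,
        Rat.cast_add]
  · intro t x _ hx φ
    obtain ⟨u, hu, hu'⟩ := hx (φ ∘ₗ (LinearMap.mulLeft ℚ t))
    refine ⟨u, hu, fun b hb => ?_⟩
    rw [hu' b hb, smul_mul_assoc, mul_smul_comm, map_smul]
    rfl

/-- Up to numerically trivial operators, the span of the ideal contains the identity only if the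
ideal does. -/
lemma exists_unit {e : Module.End W.K (W.H X)} (he : e ∈ idJ W X T)
    (hN : 1 - e ∈ (aSys W).NOp X X) : ∃ u ∈ idI W X T, 1 - u ∈ (aSys W).NOp X X := by
  obtain ⟨φ, hφ⟩ := exists_phi W.K
  obtain ⟨u, hu, hu'⟩ := exists_descent he φ
  refine ⟨u, hu, mem_NOp_of_trace (isAlg_op (isAlg_sub isAlg_one hu.1)) fun v hv => ?_⟩
  have hA := isAlg_sub (W := W) isAlg_one hu.1
  obtain ⟨d, hd, rfl⟩ := Sys.mem_Op.1 hv
  refine alg_ind (p := fun d => LinearMap.trace W.K (W.H X)
    (par (W.isInternal X) * ((1 - u) * W.corr d)) = 0) ?_ ?_ ?_ ?_ hd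
  · intro j b hb
    by_cases hj : j = X.dim
    · subst hj
      have h1 : LinearMap.trace W.K (W.H X) (par (W.isInternal X) *
          ((1 - e) * W.corr (W.cl _ b))) = 0 := Sys.NOp.trace hN (Sys.Op.corr (cl_mem_C hb))
      rw [sub_mul, mul_sub, map_sub, sub_eq_zero] at h1
      obtain ⟨a, ha, ha'⟩ := isAlg_one (W := W) (X := X)
      obtain ⟨r, hr⟩ := trace_cl_cl (W := W) ha hb
      rw [ha'] at hr
      rw [sub_mul, mul_sub, map_sub, sub_eq_zero, hu' b hb, ← h1, hr]
      have := phi_cast φ 1 r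
      rw [one_mul, hφ, mul_one] at this
      rw [this]
    · obtain ⟨a, ha, ha'⟩ := hA
      rw [← ha']
      exact trace_cl_ne (W.cl_mem ha) hb hj
  · rw [corr_zero, mul_zero, mul_zero, map_zero]
  · intro a b ha hb; rw [corr_add, mul_add, mul_add, map_add, ha, hb, add_zero]
  · intro t a ha; rw [corr_smul, mul_smul_comm, mul_smul_comm, map_smul, ha, smul_zero]

end rational

section descend

/-- If the complement is nilpotent on the degrees in `T`, the projector is algebraic. -/
lemma isAlg_of_nil {u : Module.End W.K (W.H X)} (hu : u ∈ idI W X T)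
    (hn : IsNilpotent (projT W X T * (1 - u))) : IsAlg W X (projT W X T) := by
  have hc : u * projT W X T = projT W X T * u := projT_comm (isAlg_kop hu.1)
  set π := projT W X T with hπ
  have hππ : π * π = π := projT_idem
  have key : ∀ m : ℕ, ∃ b, IsAlg W X b ∧ π * b = b ∧ b * π = b ∧
      (π * (1 - u)) ^ (m + 1) = π - b := by
    intro m
    induction m with
    | zero =>
      refine ⟨π * u, hu.2, ?_, ?_, ?_⟩
      · rw [← mul_assoc, hππ]
      · rw [mul_assoc, hc, ← mul_assoc, hππ]
      · rw [zero_add, pow_one, mul_sub, mul_one]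
    | succ m ih =>
      obtain ⟨b, hb, hb1, hb2, he⟩ := ih
      have h1 : π * (π * u) = π * u := by rw [← mul_assoc, hππ]
      have h2 : (π * u) * π = π * u := by rw [mul_assoc, hc, ← mul_assoc, hππ]
      refine ⟨b + π * u - b * (π * u), isAlg_sub (hb.add hu.2) (hb.mul hu.2), ?_, ?_, ?_⟩
      · rw [mul_sub, mul_add, hb1, h1, ← mul_assoc, hb1]
      · rw [sub_mul, add_mul, hb2, h2, mul_assoc, h2]
      · rw [pow_succ, he, mul_sub, mul_one, sub_mul, mul_sub, mul_sub, hππ, h1, hb2]
        abel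
  obtain ⟨m, hm⟩ := hn
  obtain ⟨b, hb, _, _, he⟩ := key m
  rw [pow_succ, hm, zero_mul] at he
  rw [sub_eq_zero.1 he.symm]
  exact hb

/-- A numerically trivial operator which is not nilpotent gives a numerically trivial idempotent. -/
lemma exists_num_idem {S : Sys W} {y : Module.End W.K (W.H X)} (hy : y ∈ S.NOp X X)
    (hn : ¬ IsNilpotent y) : ∃ (q : W.K[X]), (aeval y q * y) ∈ S.NOp X X ∧
      (aeval y q * y) * (aeval y q * y) = aeval y q * y ∧ aeval y q * y ≠ 0 := by
  obtain ⟨q, hq1, hq2⟩ := exists_fit y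
  refine ⟨q, ?_, hq1, fun h => hn (hq2 h)⟩
  exact fit_mem (J := S.NOp X X) (fun a ha b hb => Sys.NOp.comp_left (Sys.NOp.op ha) hb) hy q

/-- If the ideal contains the identity, the projector is algebraic. -/
lemma isAlg_of_one (hT : (∀ i ∈ T, Even i) ∨ ∀ i ∈ T, Odd i) (h1 : 1 ∈ idJ W X T) :
    IsAlg W X (projT W X T) := by
  obtain ⟨u, hu, huN⟩ := exists_unit h1 (by rw [sub_self]; exact Submodule.zero_mem _)
  refine isAlg_of_nil hu ?_
  have hπ : projT W X T ∈ (aSys W).Op X X := by
    have := idJ_proj h1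
    rwa [mul_one] at this
  have hy : projT W X T * (1 - u) ∈ (aSys W).NOp X X := Sys.NOp.comp_left hπ huN
  by_contra hn
  obtain ⟨q, hf, hff, hf0⟩ := exists_num_idem hy hn
  set y := projT W X T * (1 - u) with hy'
  set f := aeval y q * y with hf'
  have hπf : projT W X T * f = f := by
    rw [hf', fit_comm, ← mul_assoc, hy', ← mul_assoc, projT_idem]
  -- the parity operator acts on the range of `f` as a scalar
  obtain ⟨s, hs, hps⟩ : ∃ s : W.K, s ≠ 0 ∧ par (W.isInternal X) * projT W X T =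
      s • projT W X T := by
    rcases hT with hT | hT
    · refine ⟨1, one_ne_zero, ?_⟩
      apply gr_ext (W.isInternal X)
      intro j x hx
      rw [Module.End.mul_apply, LinearMap.smul_apply]
      by_cases hj : j ∈ T
      · rw [projT_in hj hx, PH.par (PH.of hx), Even.neg_one_pow (hT j hj)]
      · rw [projT_out hj hx, map_zero, smul_zero]
    · refine ⟨-1, neg_ne_zero.2 one_ne_zero, ?_⟩
      apply gr_ext (W.isInternal X)
      intro j x hx
      rw [Module.End.mul_apply, LinearMap.smul_apply]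
      by_cases hj : j ∈ T
      · rw [projT_in hj hx, PH.par (PH.of hx), Odd.neg_one_pow (hT j hj)]
      · rw [projT_out hj hx, map_zero, smul_zero]
  have h2 : LinearMap.trace W.K (W.H X) (par (W.isInternal X) * (f * 1)) = 0 :=
    Sys.NOp.trace hf (isAlg_op isAlg_one)
  rw [mul_one, ← hπf, ← mul_assoc, hps, smul_mul_assoc, hπf, map_smul, smul_eq_mul] at h2
  exact trace_ne_zero hff hf0 ((mul_eq_zero.1 h2).resolve_left hs)

/-- If the projector to the even degrees is algebraic and the ideal contains an operator which is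
numerically equivalent to the identity, then the projector is algebraic. -/
lemma isAlg_of_sign (hP : IsAlg W X (projT W X {i | Even i})) {u : Module.End W.K (W.H X)}
    (hu : u ∈ idI W X T) (huN : 1 - u ∈ (aSys W).NOp X X) : IsAlg W X (projT W X T) := by
  have hpar : par (W.isInternal X) ∈ (aSys W).Op X X := by
    have h1 : par (W.isInternal X) = (2 : W.K) • projT W X {i | Even i} - 1 := by
      apply gr_ext (W.isInternal X)
      intro j x hx
      rw [LinearMap.sub_apply, LinearMap.smul_apply, Module.End.one_apply, PH.par (PH.of hx)]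
      by_cases hj : j ∈ {i | Even i}
      · rw [projT_in hj hx, Even.neg_one_pow hj, one_smul, two_smul]; abel
      · rw [projT_out hj hx, Odd.neg_one_pow (Nat.not_even_iff_odd.1 hj), smul_zero, zero_sub,
          neg_one_smul]
    rw [h1]
    exact Submodule.sub_mem _ (Submodule.smul_mem _ _ (isAlg_op hP)) (isAlg_op isAlg_one)
  have hn : IsNilpotent (1 - u) := by
    by_contra hn
    obtain ⟨q, hf, hff, hf0⟩ := exists_num_idem huN hn
    set f := aeval (1 - u) q * (1 - u) with hf'
    have h2 : LinearMap.trace W.K (W.H X) (par (W.isInternal X) *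
        (f * par (W.isInternal X))) = 0 := Sys.NOp.trace hf hpar
    rw [LinearMap.trace_mul_comm, mul_assoc, par_sq, mul_one] at h2
    exact trace_ne_zero hff hf0 h2
  refine isAlg_of_nil hu ?_
  obtain ⟨m, hm⟩ := hn
  refine ⟨m, ?_⟩
  have hc : Commute (projT W X T) (1 - u) :=
    (projT_comm (isAlg_kop (isAlg_sub isAlg_one hu.1))).symm
  rw [hc.mul_pow, hm, mul_zero]

end descend

end Pool.Agent.E8helper32.Inf
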