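import Pool.Agent.E8helper32.Inf.Grow

/-!
# The zero-one law for the Künneth components of the cycles on `X^n × Y`
-/

set_option autoImplicit false

open CategoryTheory AlgebraicGeometry Polynomial

universe u v

namespace Pool.Agent.E8helper32.Inf

open Module
open Pool.Agent.H914 Pool.Agent.H914.VarClass Pool.Agent.H914.VarClass.Obj
  Pool.Agent.H914.WeilCohomology Pool.Agent.Y133.Half Pool.Agent.X252.SCT Pool.Agent.X252.SCK

variable {k : Type u} [Field k] {𝒱 : VarClass k} {ops : CycleOps 𝒱}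
  {W : WeilCohomology.{u, v} ops} {X Y Z Z' Z'' P Q V : 𝒱.Obj} {T : Set ℕ}

section zero

variable {S : Sys W}

lemma tr_prod_zero (h : ∀ l ∈ S.C Z, W.tr Z l = 0) :
    ∀ c ∈ S.C (X.prod Z), W.tr (X.prod Z) c = 0 := by
  intro c hc
  have h2 := W.tr_push (snd X Z) c 1
  rw [mul_one, map_one, mul_one] at h2
  rw [← h2]
  exact h _ (S.push _ hc)

lemma tr_prod_zero' (h : ∀ l ∈ S.C Z, W.tr Z l = 0) :
    ∀ c ∈ S.C (Z.prod X), W.tr (Z.prod X) c = 0 := by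
  intro c hc
  have h2 := W.tr_push (fst Z X) c 1
  rw [mul_one, map_one, mul_one] at h2
  rw [← h2]
  exact h _ (S.push _ hc)

lemma tr_tw_zero (h : ∀ l ∈ S.C Y, W.tr Y l = 0) (n : ℕ) :
    ∀ c ∈ S.C (tw X Y n), W.tr (tw X Y n) c = 0 := by
  induction n with
  | zero => exact h
  | succ n ih => exact tr_prod_zero (Z := tw X Y n) ih

lemma tr_prod_ne {l : W.H P} (hl : l ∈ S.C P) (h : W.tr P l ≠ 0) {m : W.H Q} (hm : m ∈ S.C Q)
    (h' : W.tr Q m ≠ 0) : ∃ c ∈ S.C (P.prod Q), W.tr (P.prod Q) c ≠ 0 :=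
  ⟨_, Sys.xp_mem_C S hl hm, by rw [tr_xp]; exact mul_ne_zero h h'⟩

lemma tr_tw_ne {l : W.H X} (hl : l ∈ S.C X) (h : W.tr X l ≠ 0) {m : W.H Y} (hm : m ∈ S.C Y)
    (h' : W.tr Y m ≠ 0) (n : ℕ) : ∃ c ∈ S.C (tw X Y n), W.tr (tw X Y n) c ≠ 0 := by
  induction n with
  | zero => exact ⟨m, hm, h'⟩
  | succ n ih =>
    obtain ⟨c, hc, hc'⟩ := ih
    exact tr_prod_ne (Q := tw X Y n) hl h hc hc'

lemma rk_zero {β : S.C Z →ₗ[W.K] S.C Z →ₗ[W.K] W.K} (h : ∀ c d, β c d = 0) : rk β = 0 := by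
  have h1 : β = 0 := by
    apply LinearMap.ext
    intro c
    apply LinearMap.ext
    intro d
    exact h c d
  rw [h1, rk]
  simp

end zero

lemma exists_of_not_NOp {e : Module.End W.K (W.H X)} (he : e ∈ (aSys W).Op X X)
    (h : e ∉ (aSys W).NOp X X) : ∃ v ∈ (aSys W).Op X X, st W X (e * v) ≠ 0 := by
  by_contra hcon
  push Not at hcon
  exact h (mem_NOp_of_trace he fun v hv => hcon v hv)

lemma goodSet_sub (W : WeilCohomology.{u, v} ops) (X Y : 𝒱.Obj) (T : Set ℕ) (n : ℕ) :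
    goodSetC W X Y T n ⊆ (aSys W).C (tw X Y n) := by
  rintro _ ⟨j, z, hz, _, rfl⟩
  exact cl_mem_C hz

lemma pin_NOp {S : Sys W} {e : Module.End W.K (W.H X)} (he : e ∈ S.NOp X X) (n : ℕ) :
    pin W X Y e 1 (n + 1) ∈ S.NOp (tw X Y (n + 1)) (tw X Y (n + 1)) := by
  have h1 : extOp W e (pin W X Y e 1 n) = extOp W e (1 : Module.End W.K (W.H (tw X Y n))) *
      extOp W (1 : Module.End W.K (W.H X)) (pin W X Y e 1 n) := by
    rw [extOp_mul, mul_one, one_mul]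
  have h2 : extOp W e (pin W X Y e 1 n) ∈ S.NOp (X.prod (tw X Y n)) (X.prod (tw X Y n)) := by
    rw [h1]
    exact Sys.NOp.comp_right (Sys.NOp.ext_left he)
      (Sys.Op.ext Sys.Op.id (pin_mem (Sys.NOp.op he) Sys.Op.id n))
  exact h2

/-- The first alternative: classes with algebraic Künneth components are exponentially rare. -/
theorem first {e : Module.End W.K (W.H X)} (he : e ∈ idJ W X T) (hee : e * e = e)
    (htr : ∀ u ∈ idI W X T,
      LinearMap.trace W.K (W.H X) (par (W.isInternal X) * ((1 - e) * u)) = 0)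
    (hN : 1 - e ∉ (aSys W).NOp X X) (Y : 𝒱.Obj) :
    ExpSmall (fun n => numDimOf W (goodSetC W X Y T n)) (fun n => numDim W (tw X Y n)) := by
  have heO : e ∈ (aSys W).Op X X := idJ_Op he
  have heO' : (1 - e) ∈ (aSys W).Op X X := Submodule.sub_mem _ Sys.Op.id heO
  have hee' : (1 - e) * (1 - e) = 1 - e := by rw [mul_sub, sub_mul, sub_mul, hee]; simp
  obtain ⟨v, hv, hv0⟩ := exists_of_not_NOp heO' hN
  have hE1 : 1 ≤ en (aSys W) X (1 - e) := en_pos hee' hv hv0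
  have hup : ∀ n, numDimOf W (goodSetC W X Y T n) ≤
      rk ((aSys W).F (tw X Y n) (pin W X Y e 1 n)) := fun n =>
    numDimOf_le _ (goodSet_sub W X Y T n) _ fun c hc => good_orth he htr Y n hc
  by_cases hY : ∀ l ∈ (aSys W).C Y, W.tr Y l = 0
  · refine ⟨0, le_rfl, one_pos, 0, fun n _ => ?_⟩
    have h1 := hup n
    rw [rk_zero (fun c d => tr_tw_zero hY n _ ((aSys W).mul (Sys.Op.apply (fun _ => le_rfl)
      (pin_mem heO Sys.Op.id n) c.2) d.2))] at h1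
    have h2 : numDimOf W (goodSetC W X Y T n) = 0 := Nat.le_zero.1 h1
    simp only [h2, Nat.cast_zero]
    positivity
  push Not at hY
  obtain ⟨m, hm, hm0⟩ := hY
  obtain ⟨l, hl, hl0⟩ : ∃ l ∈ (aSys W).C X, W.tr X l ≠ 0 := by
    by_contra hcon
    push Not at hcon
    obtain ⟨c, hc, hcv⟩ := Sys.mem_Op.1 heO'
    obtain ⟨d, hd, rfl⟩ := Sys.mem_Op.1 hv
    have h1 := trace_corr_corr (W := W) c d
    rw [hcv] at h1
    apply hv0
    refine Eq.trans h1 ?_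
    exact tr_prod_zero' hcon _ ((aSys W).mul hc ((aSys W).map _ hd))
  have hpos : ∀ n, 1 ≤ (aSys W).a (tw X Y n) := by
    intro n
    obtain ⟨c, hc, hc'⟩ := tr_tw_ne hl hl0 hm hm0 n
    exact a_pos' hc hc'
  by_cases hE0 : e ∈ (aSys W).NOp X X
  · refine ⟨0, le_rfl, one_pos, 1, fun n hn => ?_⟩
    obtain ⟨n, rfl⟩ : ∃ n', n = n' + 1 := ⟨n - 1, by omega⟩
    have h1 := hup (n + 1)
    rw [rk_zero (fun c d => NOp_orth (pin_NOp hE0 n) c.2 d d.2)] at h1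
    have h2 : numDimOf W (goodSetC W X Y T (n + 1)) = 0 := Nat.le_zero.1 h1
    simp only [h2, Nat.cast_zero]
    positivity
  obtain ⟨v', hv', hv0'⟩ := exists_of_not_NOp heO hE0
  have hE0' : 1 ≤ en (aSys W) X e := en_pos hee hv' hv0'
  obtain ⟨c, hc1, hcU, κ, hκ, hκL⟩ := rate heO hee hE0' hE1
  set G : ℝ := (en (aSys W) Y 1 : ℝ) with hG
  set c₁ : ℝ := c + 1 / 2 with hc₁
  have hc₁1 : 1 ≤ c₁ := by rw [hc₁]; linarith
  have hc₁0 : 0 < c₁ := by linarith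
  refine expSmall_of_sq (C := G * (κ ^ 2)⁻¹ * c₁ ^ 5) (q := c / c₁) 0 5
    (div_nonneg (by linarith) hc₁0.le) ((div_lt_one hc₁0).2 (by rw [hc₁]; linarith))
    fun n hn => ?_
  -- upper bound
  have h1 : (numDimOf W (goodSetC W X Y T n) : ℝ) ^ 2 ≤ c ^ n * G := by
    obtain ⟨N, rfl⟩ : ∃ N, n = 0 + N + 1 := ⟨n - 1, by omega⟩
    have h2 := (Nat.pow_le_pow_left (hup (0 + N + 1)) 2).trans (rk_pin (aSys W) heO hee Y N)
    have h3 : (numDimOf W (goodSetC W X Y T (0 + N + 1)) : ℝ) ^ 2 ≤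
        (en (aSys W) (tw X X N) (pin W X X e e N) : ℝ) * en (aSys W) Y 1 := by exact_mod_cast h2
    refine h3.trans ?_
    rw [zero_add]
    exact mul_le_mul_of_nonneg_right (hcU N) (Nat.cast_nonneg _)
  -- lower bound
  have h2 : c₁ ^ n ≤ c₁ ^ 5 * (κ ^ 2)⁻¹ * (numDim W (tw X Y n) : ℝ) ^ 2 := by
    obtain ⟨r, N, hr, rfl⟩ : ∃ r N, r ≤ 1 ∧ n = r + (N + 1) + 1 + (N + 1) + 1 :=
      ⟨n % 2, (n - n % 2 - 4) / 2, by omega, by omega⟩
    have h3 := (Bn_le heO hee N).trans (a_tw_ge (aSys W) X Y r (N + 1) (hpos r))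
    rw [← numDim_eq W] at h3
    set D := numDim W (tw X Y (r + (N + 1) + 1 + (N + 1) + 1)) with hD
    have h4 : κ * c₁ ^ N ≤ D := (hκL N).trans (by exact_mod_cast h3)
    have h5 : (κ * c₁ ^ N) ^ 2 ≤ (D : ℝ) ^ 2 := pow_le_pow_left₀ (by positivity) h4 2
    have h6 : c₁ ^ (r + (N + 1) + 1 + (N + 1) + 1) ≤ c₁ ^ 5 * c₁ ^ (2 * N) := by
      rw [← pow_add]
      exact pow_le_pow_right₀ hc₁1 (by omega)
    have h7 : c₁ ^ (2 * N) = (κ ^ 2)⁻¹ * (κ * c₁ ^ N) ^ 2 := by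
      rw [mul_pow, ← pow_mul, mul_comm N 2]
      field_simp
    calc c₁ ^ (r + (N + 1) + 1 + (N + 1) + 1) ≤ c₁ ^ 5 * c₁ ^ (2 * N) := h6
      _ = c₁ ^ 5 * (κ ^ 2)⁻¹ * (κ * c₁ ^ N) ^ 2 := by rw [h7]; ring
      _ ≤ _ := mul_le_mul_of_nonneg_left h5 (by positivity)
  have hG0 : 0 ≤ G := Nat.cast_nonneg _
  calc (numDimOf W (goodSetC W X Y T n) : ℝ) ^ 2 ≤ c ^ n * G := h1
    _ = (c / c₁) ^ n * G * c₁ ^ n := by rw [div_pow]; field_simp
    _ ≤ (c / c₁) ^ n * G * (c₁ ^ 5 * (κ ^ 2)⁻¹ * (numDim W (tw X Y n) : ℝ) ^ 2) := by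
        apply mul_le_mul_of_nonneg_left h2
        have : 0 ≤ c / c₁ := div_nonneg (by linarith) hc₁0.le
        positivity
    _ = _ := by rw [pow_zero]; ring

end Pool.Agent.E8helper32.Inf
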