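import Pool.Agent.E8helper32.Inf.Main

/-!
# The second alternative
-/

set_option autoImplicit false

open CategoryTheory AlgebraicGeometry Polynomial

universe u v

namespace Pool.Agent.E8helper32.Inf

open Module
open Pool.Agent.H914 Pool.Agent.H914.VarClass Pool.Agent.H914.VarClass.Obj
  Pool.Agent.H914.WeilCohomology Pool.Agent.Y133.Half Pool.Agent.X252.SCT Pool.Agent.X252.SCK

variable {k : Type u} [Field k] {𝒱 : VarClass k} {ops : CycleOps 𝒱}
  {W : WeilCohomology.{u, v} ops} {X Y Z Z' Z'' P Q V : 𝒱.Obj} {T : Set ℕ}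

/-- External products of algebraic operators. -/
lemma isAlg_ext {a : Module.End W.K (W.H P)} {b : Module.End W.K (W.H Q)} (ha : IsAlg W P a)
    (hb : IsAlg W Q b) : IsAlg W (P.prod Q) (extOp W a b) := by
  obtain ⟨z, hz, rfl⟩ := ha
  obtain ⟨w, hw, rfl⟩ := hb
  refine ⟨ops.mul (ops.pull (q1 P Q) z) (ops.pull (q2 P Q) w), ?_, ?_⟩
  · rw [dim_prod]
    exact ops.mul_mem (ops.pull_mem _ hz) (ops.pull_mem _ hw)
  · rw [W.cl_mul, W.cl_pull, W.cl_pull,
      Sys.corr_ext_class _ (PH.of' (by omega) (W.cl_mem hw))]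

/-- Algebraic operators act on cycles. -/
lemma isAlg_apply {a : Module.End W.K (W.H Z)} (ha : IsAlg W Z a) {j : ℕ} {z : Z.Cycles}
    (hz : Z.IsCyc j z) : ∃ w, Z.IsCyc j w ∧ W.cl Z w = a (W.cl Z z) := by
  obtain ⟨c, hc, rfl⟩ := ha
  refine ⟨ops.push (snd Z Z) (ops.mul c (ops.pull (fst Z Z) z)),
    ops.push_mem _ (ops.mul_mem hc (ops.pull_mem _ hz)) (by rw [dim_prod]; omega), ?_⟩
  rw [W.cl_push, W.cl_mul, W.cl_pull, corr_apply]

lemma isAlg_pin {u : Module.End W.K (W.H X)} (hu : IsAlg W X u) (Y : 𝒱.Obj) :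
    ∀ n, IsAlg W (tw X Y n) (pin W X Y u 1 n)
  | 0 => isAlg_one
  | n + 1 => isAlg_ext hu (isAlg_pin hu Y n)

lemma ext_step1 {u : Module.End W.K (W.H X)} {A : Module.End W.K (W.H Z)}
    (hu : IsAlg W X (projT W X T * u)) (hA : IsAlg W Z A) :
    IsAlg W (X.prod Z) (extOp W (projT W X T) (1 : Module.End W.K (W.H Z)) * extOp W u A) := by
  rw [extOp_mul, one_mul]
  exact isAlg_ext hu hA

lemma ext_step2 {u : Module.End W.K (W.H X)} {A B : Module.End W.K (W.H Z)}
    (hu : IsAlg W X u) (hA : IsAlg W Z (B * A)) :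
    IsAlg W (X.prod Z) (extOp W (1 : Module.End W.K (W.H X)) B * extOp W u A) := by
  rw [extOp_mul, one_mul]
  exact isAlg_ext hu hA

lemma isAlg_kComp {u : Module.End W.K (W.H X)} (hu : u ∈ idI W X T) (Y : 𝒱.Obj) :
    ∀ (n : ℕ) (i : Fin n), IsAlg W (tw X Y n) (kComp W X Y T n i * pin W X Y u 1 n)
  | n + 1, ⟨0, _⟩ => ext_step1 (Z := tw X Y n) hu.2 (isAlg_pin hu.1 Y n)
  | n + 1, ⟨i + 1, h⟩ => ext_step2 (Z := tw X Y n) hu.1
      (isAlg_kComp hu Y n ⟨i, Nat.lt_of_succ_lt_succ h⟩)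

lemma sub_ext_NOp {S : Sys W} {e : Module.End W.K (W.H X)} {A : Module.End W.K (W.H Z)}
    (he : 1 - e ∈ S.NOp X X) (heO : e ∈ S.Op X X) (hA : 1 - A ∈ S.NOp Z Z) :
    1 - extOp W e A ∈ S.NOp (X.prod Z) (X.prod Z) := by
  have h1 : 1 - extOp W e A = extOp W (1 - e) (1 : Module.End W.K (W.H Z)) +
      extOp W e (1 : Module.End W.K (W.H Z)) * extOp W (1 : Module.End W.K (W.H X)) (1 - A) := by
    rw [extOp_mul, mul_one, one_mul, extOp_sub_left, extOp_sub_right, extOp_one]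
    abel
  rw [h1]
  exact Submodule.add_mem _ (Sys.NOp.ext_left he)
    (Sys.NOp.comp_left (Sys.Op.ext heO Sys.Op.id) (Sys.NOp.ext_right hA))

lemma sub_pin_NOp {S : Sys W} {e : Module.End W.K (W.H X)}
    (he : 1 - e ∈ S.NOp X X) (heO : e ∈ S.Op X X) (Y : 𝒱.Obj) :
    ∀ n, 1 - pin W X Y e 1 n ∈ S.NOp (tw X Y n) (tw X Y n)
  | 0 => by
    have h1 : (1 : Module.End W.K (W.H (tw X Y 0))) - pin W X Y e 1 0 = 0 := sub_self _
    rw [h1]
    exact Submodule.zero_mem _
  | n + 1 => sub_ext_NOp (Z := tw X Y n) he heO (sub_pin_NOp he heO Y n)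

lemma finrank_pin {e : Module.End W.K (W.H X)} (hee : e * e = e) (Y : 𝒱.Obj) :
    ∀ n, finrank W.K (LinearMap.range (pin W X Y e 1 n)) =
      finrank W.K (LinearMap.range e) ^ n * finrank W.K (W.H Y)
  | 0 => by
    rw [pow_zero, one_mul]
    exact Sys.rank_one Y
  | n + 1 => by
    have h1 := finrank_extOp (W := W) (X := X) (Y := tw X Y n) (g := e)
      (h := pin W X Y e 1 n) hee (pin_idem hee (mul_one 1) n)
    rw [finrank_pin hee Y n] at h1
    have h2 : finrank W.K (LinearMap.range (pin W X Y e 1 (n + 1))) =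
      finrank W.K (LinearMap.range (extOp W e (pin W X Y e 1 n))) := rfl
    rw [h2, h1, pow_succ]
    ring

/-- The bound for the numerical rank if the complement of the idempotent is numerically
trivial. -/
lemma numDim_le {e : Module.End W.K (W.H X)} (heO : e ∈ (aSys W).Op X X) (hee : e * e = e)
    (hN : 1 - e ∈ (aSys W).NOp X X) (h1 : e ≠ 1) (Y : 𝒱.Obj) (n : ℕ) :
    numDim W (tw X Y n) ≤ (finrank W.K (W.H X) - 1) ^ n * finrank W.K (W.H Y) := by
  have h2 : numDimOf W (algSet W (tw X Y n)) ≤ rk ((aSys W).F (tw X Y n) (pin W X Y e 1 n)) := by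
    refine numDimOf_le _ ?_ _ fun c hc => ?_
    · rintro _ ⟨j, z, hz, rfl⟩; exact cl_mem_C hz
    · have h3 := NOp_orth (sub_pin_NOp hN heO Y n)
        (c := c) (by obtain ⟨j, z, hz, rfl⟩ := hc; exact cl_mem_C hz)
      rwa [LinearMap.sub_apply, Module.End.one_apply] at h3
  have h3 := (aSys W).rk_F_le (pin W X Y e 1 n)
  rw [finrank_pin hee] at h3
  have h4 : finrank W.K (LinearMap.range e) ≤ finrank W.K (W.H X) - 1 := by
    obtain ⟨-, h5⟩ := Sys.finrank_compl (W := W) (P := X) (g := e) hee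
    have h6 := Sys.finrank_range_pos (W := W) (P := X) (g := 1 - e) (sub_ne_zero.2 h1.symm)
    omega
  have h5 : numDim W (tw X Y n) = numDimOf W (algSet W (tw X Y n)) := rfl
  rw [h5]
  exact (h2.trans h3).trans (Nat.mul_le_mul_right _ (Nat.pow_le_pow_left h4 n))

/-- The two definitions of the powers. -/
noncomputable def pwTw (X : 𝒱.Obj) : ∀ N, pw X N ≅ tw X X N
  | 0 => Iso.refl X
  | N + 1 => prodComm (pw X N) X ≪≫ prodCongr (Iso.refl X) (pwTw X N)

/-- The growth of the space of all algebraic classes. -/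
lemma alg_growth (W : WeilCohomology.{u, v} ops) (X Y : 𝒱.Obj) (hY : 0 < finrank W.K (W.H Y))
    (hX : 0 < finrank W.K (W.H X)) (n : ℕ) (hn : 2 ≤ n) :
    finrank W.K (W.H X) ^ n ≤ finrank W.K (W.H X) *
      (algDim W (tw X Y n) * (n + 3) ^ (finrank W.K (W.H X) ^ 2)) := by
  set b := finrank W.K (W.H X) with hb
  obtain ⟨r, N, hr, rfl⟩ : ∃ r N, r ≤ 1 ∧ n = r + N + 1 + N + 1 :=
    ⟨n % 2, (n - n % 2 - 2) / 2, by omega, by omega⟩
  set S := aSys W with hS
  set R := tw X X N with hR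
  have e1 : finrank W.K (S.C (tw X Y (r + N + 1 + N + 1))) =
      finrank W.K (S.C (R.prod (tw X Y (r + N + 1)))) :=
    S.finrank_C_iso (twAdd X Y (r + N + 1) N)
  have e2 : finrank W.K (S.C (R.prod (tw X Y (r + N + 1)))) =
      finrank W.K (S.C (R.prod (R.prod (tw X Y r)))) :=
    S.finrank_C_iso (prodCongr (Iso.refl R) (twAdd X Y r N))
  have e3 : finrank W.K (S.C ((R.prod R).prod (tw X Y r))) =
      finrank W.K (S.C (R.prod (R.prod (tw X Y r)))) :=
    S.finrank_C_iso (θ₃ R R (tw X Y r))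
  have e4 : finrank W.K (S.C (R.prod R)) ≤ finrank W.K (S.C ((R.prod R).prod (tw X Y r))) := by
    apply S.finrank_C_le (fst (R.prod R) (tw X Y r))
    intro x y hxy
    have h1 : (1 : W.H (tw X Y r)) ≠ 0 := by
      have : Nontrivial (W.H (tw X Y r)) := by
        apply Module.nontrivial_of_finrank_pos (R := W.K)
        rw [finrank_tw]
        positivity
      exact one_ne_zero
    have h3 : xp W (x - y) (1 : W.H (tw X Y r)) = 0 := by
      rw [xp, map_one, mul_one, map_sub, hxy, sub_self]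
    exact sub_eq_zero.1 (xp_eq_zero_right h1 h3)
  have e5 : finrank W.K (S.C ((pw X N).prod (pw X N))) = finrank W.K (S.C (R.prod R)) :=
    S.finrank_C_iso (prodCongr (pwTw X N) (pwTw X N))
  have e6 := S.growth X N
  rw [e5] at e6
  have e7 : finrank W.K (S.C (R.prod R)) ≤ algDim W (tw X Y (r + N + 1 + N + 1)) := by
    refine e4.trans ?_
    rw [e3, ← e2, ← e1]
    exact le_rfl
  have h1 : b ^ (r + N + 1 + N + 1) ≤ b * b ^ (2 * (N + 1)) := by
    rw [← pow_succ']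
    exact Nat.pow_le_pow_right hX (by omega)
  refine h1.trans (Nat.mul_le_mul_left _ (e6.trans ?_))
  exact Nat.mul_le_mul e7 (Nat.pow_le_pow_left (by omega) _)

lemma expSmall_of_bound (W : WeilCohomology.{u, v} ops) (X Y : 𝒱.Obj)
    (hX : 0 < finrank W.K (W.H X)) (h : ∀ n, numDim W (tw X Y n) ≤
      (finrank W.K (W.H X) - 1) ^ n * finrank W.K (W.H Y)) :
    ExpSmall (fun n => numDim W (tw X Y n)) (fun n => algDim W (tw X Y n)) := by
  rcases Nat.eq_zero_or_pos (finrank W.K (W.H Y)) with hY | hY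
  · refine ⟨0, le_rfl, one_pos, 0, fun n _ => ?_⟩
    have h1 := h n
    rw [hY, mul_zero] at h1
    have h2 : numDim W (tw X Y n) = 0 := Nat.le_zero.1 h1
    simp only [h2, Nat.cast_zero]
    positivity
  set b := finrank W.K (W.H X) with hb
  set d := finrank W.K (W.H Y) with hd
  have hb1 : (1 : ℝ) ≤ b := by exact_mod_cast hX
  have hb0 : (0 : ℝ) < b := by linarith
  set q : ℝ := (b - 1) / b with hq
  have hq0 : 0 ≤ q := div_nonneg (by linarith) hb0.le
  have hq1 : q < 1 := (div_lt_one hb0).2 (by linarith)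
  refine expSmall_of_sq (C := ((d : ℝ) * b) ^ 2) (q := q ^ 2) (2 * b ^ 2) 2 (by positivity)
    (by nlinarith) fun n hn => ?_
  have h1 : (numDim W (tw X Y n) : ℝ) ≤ ((b : ℝ) - 1) ^ n * d := by
    have h2 : (numDim W (tw X Y n) : ℝ) ≤ (((b - 1 : ℕ) : ℝ)) ^ n * d := by exact_mod_cast h n
    rwa [Nat.cast_sub hX, Nat.cast_one] at h2
  have h2 : (b : ℝ) ^ n ≤ b * (algDim W (tw X Y n) * ((n : ℝ) + 3) ^ (b ^ 2)) := by
    have := alg_growth W X Y hY hX n hn
    exact_mod_cast this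
  have h3 : (numDim W (tw X Y n) : ℝ) ≤ q ^ n * (d * b) *
      (algDim W (tw X Y n) * ((n : ℝ) + 3) ^ (b ^ 2)) := by
    calc (numDim W (tw X Y n) : ℝ) ≤ ((b : ℝ) - 1) ^ n * d := h1
      _ = q ^ n * d * (b : ℝ) ^ n := by rw [hq, div_pow]; field_simp
      _ ≤ q ^ n * d * (b * (algDim W (tw X Y n) * ((n : ℝ) + 3) ^ (b ^ 2))) :=
          mul_le_mul_of_nonneg_left h2 (by positivity)
      _ = _ := by ring
  calc (numDim W (tw X Y n) : ℝ) ^ 2 ≤ (q ^ n * (d * b) *
      (algDim W (tw X Y n) * ((n : ℝ) + 3) ^ (b ^ 2))) ^ 2 :=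
        pow_le_pow_left₀ (Nat.cast_nonneg _) h3 2
    _ = _ := by
      have e1 : ((n : ℝ) + 3) ^ (2 * b ^ 2) = (((n : ℝ) + 3) ^ (b ^ 2)) ^ 2 := by
        rw [mul_comm 2 (b ^ 2), pow_mul]
      have e2 : (q ^ 2) ^ n = (q ^ n) ^ 2 := by
        rw [← pow_mul, mul_comm 2 n, pow_mul]
      rw [e1, e2]
      ring

/-- **The zero-one law.** -/
theorem mainC (W : WeilCohomology.{u, v} ops) (X : 𝒱.Obj) (T : Set ℕ)
    (hT : (∀ i ∈ T, Even i) ∨ ∀ i ∈ T, Odd i) (h : ¬ DegreesAlg W X T) :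
    (∀ Y, ExpSmall (fun n => numDimOf W (goodSetC W X Y T n))
      (fun n => numDim W (tw X Y n))) ∨
    (¬ DegreesAlg W X {i | Even i} ∧ ∀ Y,
      (∀ n j z, (tw X Y n).IsCyc j z → ∃ z', (tw X Y n).IsCyc j z' ∧ GoodC W X Y T n j z' ∧
        OrthAlg W (tw X Y n) (W.cl _ z - W.cl _ z')) ∧
      (∀ n, numDim W (tw X Y n) ≤ (finrank W.K (W.H X) - 1) ^ n * finrank W.K (W.H Y)) ∧
      ExpSmall (fun n => numDim W (tw X Y n)) (fun n => algDim W (tw X Y n))) := by
  obtain ⟨e, he, hee, htr⟩ := exists_eps W X T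
  have heO : e ∈ (aSys W).Op X X := idJ_Op he
  have hπ : ¬ IsAlg W X (projT W X T) := fun h' => h (degreesAlg_iff.2 h')
  have he1 : e ≠ 1 := by
    rintro rfl
    exact hπ (isAlg_of_one hT he)
  by_cases hN : 1 - e ∈ (aSys W).NOp X X
  · right
    obtain ⟨u, hu, huN⟩ := exists_unit he hN
    have hX : 0 < finrank W.K (W.H X) := by
      have h6 := Sys.finrank_range_pos (W := W) (P := X) (g := 1 - e) (sub_ne_zero.2 he1.symm)
      have h7 := Submodule.finrank_le (LinearMap.range (1 - e))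
      omega
    refine ⟨fun hP => hπ (isAlg_of_sign (degreesAlg_iff.1 hP) hu huN), fun Y => ⟨?_, ?_, ?_⟩⟩
    · intro n j z hz
      obtain ⟨z', hz', hcl⟩ := isAlg_apply (isAlg_pin hu.1 Y n) hz
      refine ⟨z', hz', fun i => ?_, ?_⟩
      · obtain ⟨w, hw, hw'⟩ := isAlg_apply (isAlg_kComp hu Y n i) hz
        refine ⟨w, hw, ?_⟩
        rw [hw', hcl]
        rfl
      · rw [orth_iff, hcl]
        have h3 := NOp_orth (sub_pin_NOp huN (isAlg_op hu.1) Y n) (cl_mem_C hz)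
        rwa [LinearMap.sub_apply, Module.End.one_apply] at h3
    · exact numDim_le heO hee hN he1 Y
    · exact expSmall_of_bound W X Y hX (numDim_le heO hee hN he1 Y)
  · left
    exact fun Y => first he hee htr hN Y

end Pool.Agent.E8helper32.Inf
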