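import Pool.Agent.Y133.Half.HalfDefs
import Pool.Agent.X252.SCT

/-!
# Künneth components of the cycles on `X^n × Y`: definitions
-/

set_option autoImplicit false

open CategoryTheory AlgebraicGeometry

universe u v

namespace Pool.Agent.E8helper32.Inf

open Pool.Agent.H914 Pool.Agent.H914.VarClass Pool.Agent.H914.VarClass.Obj
  Pool.Agent.H914.WeilCohomology Pool.Agent.Y133.Half Pool.Agent.X252.SCT

variable {k : Type u} [Field k] {𝒱 : VarClass k} {ops : CycleOps 𝒱}

/-- The product `X × (X × ( ⋯ (X × Y)))` with `n` factors `X`. -/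
noncomputable def tw (X Y : 𝒱.Obj) : ℕ → 𝒱.Obj
  | 0 => Y
  | n + 1 => X.prod (tw X Y n)

/-- The part of `H(X^n × Y)` where the degree in the factor `X` with the number `m < n` (counted from
zero) belongs to `T`: the sums of the external products of a class in `H^i(X)` with `i ∈ T` on this
factor and of any classes on the other factors. -/
inductive KPart (W : WeilCohomology.{u, v} ops) (X Y : 𝒱.Obj) (T : Set ℕ) :
    ∀ n : ℕ, ℕ → W.H (tw X Y n) → Prop
  | head (n i : ℕ) (hi : i ∈ T) (a : W.H X) (ha : a ∈ W.gr X i) (b : W.H (tw X Y n)) :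
      KPart W X Y T (n + 1) 0 (W.map (fst X (tw X Y n)) a * W.map (snd X (tw X Y n)) b)
  | tail (n m : ℕ) (a : W.H X) (b : W.H (tw X Y n)) (hb : KPart W X Y T n m b) :
      KPart W X Y T (n + 1) (m + 1) (W.map (fst X (tw X Y n)) a * W.map (snd X (tw X Y n)) b)
  | zero (n m : ℕ) : KPart W X Y T n m 0
  | add (n m : ℕ) (c d : W.H (tw X Y n)) (hc : KPart W X Y T n m c) (hd : KPart W X Y T n m d) :
      KPart W X Y T n m (c + d)

/-- All Künneth components of the class of the cycle `z` on `X^n × Y` for the degrees in `T` in one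
of the factors `X` are classes of cycles of codimension `j`. -/
def Good (W : WeilCohomology.{u, v} ops) (X Y : 𝒱.Obj) (T : Set ℕ) (n j : ℕ)
    (z : (tw X Y n).Cycles) : Prop :=
  ∀ m < n, ∃ w, (tw X Y n).IsCyc j w ∧ KPart W X Y T n m (W.cl (tw X Y n) w) ∧
    KPart W X Y Tᶜ n m (W.cl (tw X Y n) z - W.cl (tw X Y n) w)

/-- The classes of the cycles on `X^n × Y` all of whose Künneth components for the degrees in `T` in
the factors `X` are algebraic. -/
def goodSet (W : WeilCohomology.{u, v} ops) (X Y : 𝒱.Obj) (T : Set ℕ) (n : ℕ) :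
    Set (W.H (tw X Y n)) :=
  {c | ∃ j z, (tw X Y n).IsCyc j z ∧ Good W X Y T n j z ∧ W.cl (tw X Y n) z = c}

/-- The dimension of the space spanned by `s` modulo the classes which are orthogonal to all
algebraic cycles. For the set of the classes of all cycles this is `numDim`. -/
noncomputable def numDimOf (W : WeilCohomology.{u, v} ops) {X : 𝒱.Obj} (s : Set (W.H X)) : ℕ :=
  dimOf W s - dimOf W {c | c ∈ Submodule.span W.K s ∧ OrthAlg W X c}

/-- The sequence `a` is exponentially small compared to `t`. -/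
def ExpSmall (a t : ℕ → ℕ) : Prop :=
  ∃ δ : ℝ, 0 ≤ δ ∧ δ < 1 ∧ ∃ n₀ : ℕ, ∀ n ≥ n₀, (a n : ℝ) ≤ δ ^ n * t n

end Pool.Agent.E8helper32.Inf
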