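import Pool.Agent.E8helper32.Inf.Second

/-!
# The zero-one law
-/

set_option autoImplicit false
set_option linter.unusedSectionVars false

open CategoryTheory AlgebraicGeometry Module

universe u v

namespace Pool.Agent.E8helper32.Inf

open Pool.Agent.H914 Pool.Agent.H914.VarClass Pool.Agent.H914.VarClass.Obj
  Pool.Agent.H914.WeilCohomology Pool.Agent.Y133.Half Pool.Agent.X252.SCT

variable {k : Type u} [Field k] {𝒱 : VarClass k} {ops : CycleOps 𝒱}
  {W : WeilCohomology.{u, v} ops} {X Y : 𝒱.Obj} {T : Set ℕ}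

lemma kComp_eq {n m : ℕ} {c : W.H (tw X Y n)} (hc : KPart W X Y T n m c) (h : m < n) :
    kComp W X Y T n ⟨m, h⟩ c = c := by
  induction hc with
  | head n i hi a ha b =>
    change extOp W (projT W X T) (1 : Module.End W.K (W.H (tw X Y n))) _ = _
    rw [extOp_tmul, projT_in hi ha, Module.End.one_apply]
  | tail n m a b hb ih =>
    change extOp W (1 : Module.End W.K (W.H X))
      (kComp W X Y T n ⟨m, Nat.lt_of_succ_lt_succ h⟩) _ = _
    rw [extOp_tmul, Module.End.one_apply, ih]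
  | zero n m => rw [map_zero]
  | add n m c d hc hd ih ih' => rw [map_add, ih h, ih' h]

lemma kComp_eq_zero {n m : ℕ} {c : W.H (tw X Y n)} (hc : KPart W X Y Tᶜ n m c) (h : m < n) :
    kComp W X Y T n ⟨m, h⟩ c = 0 := by
  induction hc with
  | head n i hi a ha b =>
    change extOp W (projT W X T) (1 : Module.End W.K (W.H (tw X Y n))) _ = _
    rw [extOp_tmul, projT_out hi ha, map_zero, zero_mul]
    rfl
  | tail n m a b hb ih =>
    change extOp W (1 : Module.End W.K (W.H X))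
      (kComp W X Y T n ⟨m, Nat.lt_of_succ_lt_succ h⟩) _ = _
    rw [extOp_tmul, ih, map_zero, mul_zero]
    rfl
  | zero n m => rw [map_zero]
  | add n m c d hc hd ih ih' => rw [map_add, ih h, ih' h, add_zero]

lemma kPart_head (n : ℕ) (c : W.H (X.prod (tw X Y n))) :
    KPart W X Y T (n + 1) 0 (extOp W (projT W X T) (1 : Module.End W.K (W.H (tw X Y n))) c) ∧
      KPart W X Y Tᶜ (n + 1) 0 (c - extOp W (projT W X T)
        (1 : Module.End W.K (W.H (tw X Y n))) c : W.H (X.prod (tw X Y n))) := by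
  refine W.kunneth_induction (p := fun c =>
    KPart W X Y T (n + 1) 0 (extOp W (projT W X T) (1 : Module.End W.K (W.H (tw X Y n))) c) ∧
      KPart W X Y Tᶜ (n + 1) 0 (c - extOp W (projT W X T)
        (1 : Module.End W.K (W.H (tw X Y n))) c : W.H (X.prod (tw X Y n)))) ?_ ?_ c
  · intro a b ha hb
    rw [map_add, add_sub_add_comm]
    exact ⟨KPart.add _ _ _ _ ha.1 hb.1, KPart.add _ _ _ _ ha.2 hb.2⟩
  · intro i j a ha b _
    rw [extOp_tmul, Module.End.one_apply]
    by_cases hi : i ∈ T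
    · rw [projT_in hi ha, sub_self]
      exact ⟨KPart.head n i hi a ha b, KPart.zero _ _⟩
    · rw [projT_out hi ha, map_zero, zero_mul, sub_zero]
      exact ⟨KPart.zero _ _, KPart.head n i hi a ha b⟩

lemma kPart_tail (n m : ℕ) (f : Module.End W.K (W.H (tw X Y n)))
    (hf : ∀ c, KPart W X Y T n m (f c) ∧ KPart W X Y Tᶜ n m (c - f c))
    (c : W.H (X.prod (tw X Y n))) :
    KPart W X Y T (n + 1) (m + 1) (extOp W (1 : Module.End W.K (W.H X)) f c) ∧
      KPart W X Y Tᶜ (n + 1) (m + 1)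
        (c - extOp W (1 : Module.End W.K (W.H X)) f c : W.H (X.prod (tw X Y n))) := by
  refine W.kunneth_induction (p := fun c =>
    KPart W X Y T (n + 1) (m + 1) (extOp W (1 : Module.End W.K (W.H X)) f c) ∧
      KPart W X Y Tᶜ (n + 1) (m + 1)
        (c - extOp W (1 : Module.End W.K (W.H X)) f c : W.H (X.prod (tw X Y n)))) ?_ ?_ c
  · intro a b ha hb
    rw [map_add, add_sub_add_comm]
    exact ⟨KPart.add _ _ _ _ ha.1 hb.1, KPart.add _ _ _ _ ha.2 hb.2⟩
  · intro i j a _ b _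
    rw [extOp_tmul, Module.End.one_apply, ← mul_sub, ← map_sub]
    exact ⟨KPart.tail _ _ _ _ (hf b).1, KPart.tail _ _ _ _ (hf b).2⟩

lemma kPart_kComp (W : WeilCohomology.{u, v} ops) (X Y : 𝒱.Obj) (T : Set ℕ) :
    ∀ (n m : ℕ) (h : m < n) (c : W.H (tw X Y n)),
      KPart W X Y T n m (kComp W X Y T n ⟨m, h⟩ c) ∧
        KPart W X Y Tᶜ n m (c - kComp W X Y T n ⟨m, h⟩ c)
  | 0, m, h, _ => absurd h (Nat.not_lt_zero m)
  | n + 1, 0, _, c => kPart_head n c
  | n + 1, m + 1, h, c => kPart_tail n m _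
      (kPart_kComp W X Y T n m (Nat.lt_of_succ_lt_succ h)) c

lemma good_iff {n j : ℕ} {z : (tw X Y n).Cycles} : Good W X Y T n j z ↔ GoodC W X Y T n j z := by
  constructor
  · rintro h ⟨m, hm⟩
    obtain ⟨w, hw, h1, h2⟩ := h m hm
    refine ⟨w, hw, ?_⟩
    have h3 := kComp_eq_zero h2 hm
    rw [map_sub, kComp_eq h1 hm, sub_eq_zero] at h3
    exact h3.symm
  · intro h m hm
    obtain ⟨w, hw, h1⟩ := h ⟨m, hm⟩
    have h2 := kPart_kComp W X Y T n m hm (W.cl _ z)
    rw [← h1] at h2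
    exact ⟨w, hw, h2.1, h2.2⟩

lemma goodSet_eq {n : ℕ} : goodSet W X Y T n = goodSetC W X Y T n := by
  ext c
  constructor
  · rintro ⟨j, z, h1, h2, h3⟩
    exact ⟨j, z, h1, good_iff.1 h2, h3⟩
  · rintro ⟨j, z, h1, h2, h3⟩
    exact ⟨j, z, h1, good_iff.2 h2, h3⟩

/-- **The zero-one law.** -/
theorem main (W : WeilCohomology.{u, v} ops) (X : 𝒱.Obj) (T : Set ℕ)
    (hT : (∀ i ∈ T, Even i) ∨ ∀ i ∈ T, Odd i) (h : ¬ DegreesAlg W X T) :
    (∀ Y, ExpSmall (fun n => numDimOf W (goodSet W X Y T n))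
      (fun n => numDim W (tw X Y n))) ∨
    (¬ DegreesAlg W X {i | Even i} ∧ ∀ Y,
      (∀ n j z, (tw X Y n).IsCyc j z → ∃ z', (tw X Y n).IsCyc j z' ∧ Good W X Y T n j z' ∧
        OrthAlg W (tw X Y n) (W.cl _ z - W.cl _ z')) ∧
      (∀ n, numDim W (tw X Y n) ≤ (finrank W.K (W.H X) - 1) ^ n * finrank W.K (W.H Y)) ∧
      ExpSmall (fun n => numDim W (tw X Y n)) (fun n => algDim W (tw X Y n))) := by
  rcases mainC W X T hT h with h1 | ⟨h1, h2⟩
  · left
    intro Y
    have h3 := h1 Y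
    simp only [← goodSet_eq] at h3
    exact h3
  · right
    refine ⟨h1, fun Y => ⟨fun n j z hz => ?_, (h2 Y).2⟩⟩
    obtain ⟨z', h3, h4, h5⟩ := (h2 Y).1 n j z hz
    exact ⟨z', h3, good_iff.2 h4, h5⟩

end Pool.Agent.E8helper32.Inf
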